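import Pool.Agent.V11191.Comp.Comb
import Pool.Agent.V11191.Span.Prob3

/-!
# Positivity and scaling of the constants
-/

open Set MeasureTheory Filter Topology ProbabilityTheory
open scoped NNReal ENNReal
open Pool.Agent.TH970

namespace Pool.Agent.V11191.Comp

open Pool.Agent.V11191.Span

variable {Ω : Type*} [mΩ : MeasurableSpace Ω] {P : Measure Ω}

/-- quasi-invariance: a null path event stays null after a shift -/
theorem qi_conv {V : ℝ≥0 → Ω → ℝ} (hm : ∀ t, Measurable (V t)) (hc : ∀ ω, Continuous (V · ω))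
    (hB : IsPreBrownianReal V P) (s : Finset ℝ≥0) (g : ℝ≥0 → ℝ) (hne : ∃ t, sh s g t ≠ 0)
    {A : (ℝ → ℝ) → Prop} (hA : MeasP A) (hnull : P {ω | A (pth V ω)} = 0) (l : ℝ) :
    P {ω | A (fun t => pth V ω t + l * sh s g t.toNNReal)} = 0 := by
  have hG := hB.isGaussianProcess
  have hP : IsProbabilityMeasure P := hG.isProbabilityMeasure
  set ξ : Ω → ℝ := fun ω => ∑ i ∈ s, g i * V i ω with hξ
  have hξm : Measurable ξ := by
    simp only [hξ]
    exact Finset.measurable_sum _ fun i _ => (hm i).const_mul _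
  have hVL : ∀ t, MemLp (V t) 2 P := fun t => (hG.hasGaussianLaw_eval t).memLp_two
  have hξL : MemLp ξ 2 P := by
    simp only [hξ]
    exact memLp_finsetSum _ fun i _ => (hVL i).const_mul _
  have hcov : ∀ t, cov[ξ, V t; P] = sh s g t := by
    intro t
    simp only [hξ]
    rw [covariance_fun_sum_left' (fun i _ => (hVL i).const_mul _) (hVL t)]
    unfold sh
    refine Finset.sum_congr rfl fun i _ => ?_
    rw [covariance_const_mul_left]
    congr 1
    rw [hB.covariance_eval]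
  set σ2 := Var[ξ; P] with hσ2
  have hσpos : 0 < σ2 := by
    rcases (variance_nonneg ξ P).eq_or_lt with h | h
    · exfalso
      obtain ⟨t, ht⟩ := hne
      apply ht
      rw [← hcov t]
      have hae := ae_eq_integral_of_variance_eq_zero hξL h.symm
      unfold covariance
      rw [integral_eq_zero_of_ae]
      filter_upwards [hae] with ω hω
      rw [hω]; simp
    · exact h
  set η : Ω → ℝ := fun ω => σ2⁻¹ * ξ ω with hη
  have hηm : Measurable η := hξm.const_mul _
  have hηL : MemLp η 2 P := hξL.const_mul _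
  set Y : ℝ≥0 → Ω → ℝ := fun t ω => V t ω - sh s g t * η ω with hY
  have hYm : ∀ t, Measurable (Y t) := fun t => (hm t).sub (hηm.const_mul _)
  have hYc : ∀ ω, Continuous (Y · ω) := by
    intro ω
    have h1 := hc ω
    have h2 := sh_cont s g
    simp only [hY]; fun_prop
  have hcovη : ∀ t, cov[η, V t; P] = σ2⁻¹ * sh s g t := by
    intro t
    simp only [hη]
    rw [covariance_const_mul_left, hcov]
  have hvarη : cov[η, η; P] = σ2⁻¹ := by
    simp only [hη]
    rw [covariance_const_mul_left, covariance_const_mul_right, covariance_self hξm.aemeasurable,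
      ← hσ2]
    field_simp
  have hcovY : ∀ t, cov[η, Y t; P] = 0 := by
    intro t
    simp only [hY]
    rw [covariance_fun_sub_right hηL (hVL t) (hηL.const_mul _), covariance_const_mul_right,
      hcovη, hvarη]
    ring
  have hJ : IsGaussianProcess (Sum.elim (fun _ : Unit => η) Y) P := by
    classical
    refine hG.of_isGaussianProcess ?_
    rintro (_ | t)
    · refine ⟨s, ∑ i : s, (σ2⁻¹ * g i) • ContinuousLinearMap.proj i, fun ω => ?_⟩
      simp only [Sum.elim_inl, hη, hξ, _root_.sum_apply, _root_.smul_apply,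
        ContinuousLinearMap.proj_apply, Finset.restrict_def, smul_eq_mul]
      rw [Finset.mul_sum, ← Finset.sum_coe_sort s]
      exact Finset.sum_congr rfl fun i _ => by ring
    · refine ⟨insert t s, ContinuousLinearMap.proj ⟨t, Finset.mem_insert_self t s⟩ -
        (sh s g t * σ2⁻¹) • ∑ i : s, (g i) • ContinuousLinearMap.proj
          (⟨i, Finset.mem_insert_of_mem i.2⟩ : (insert t s : Finset ℝ≥0)), fun ω => ?_⟩
      simp only [Sum.elim_inr, hY, hη, hξ, _root_.sub_apply,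
        _root_.sum_apply, _root_.smul_apply,
        ContinuousLinearMap.proj_apply, Finset.restrict_def, smul_eq_mul]
      rw [← Finset.sum_coe_sort s]
      ring
  have hind0 : IndepFun (fun ω (_ : Unit) => η ω) (fun ω t => Y t ω) P :=
    hJ.indepFun_of_covariance_eq_zero (fun _ => hηm.aemeasurable) (fun t => (hYm t).aemeasurable)
      (fun _ t => hcovY t)
  let C := {y : ℝ≥0 → ℝ // Continuous y}
  let Ψ : Ω → C := fun ω => ⟨fun t => Y t ω, hYc ω⟩
  have hΨm : Measurable Ψ := Measurable.subtype_mk (measurable_pi_lambda _ hYm)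
  have hind : IndepFun Ψ η P := by
    have h1 : IndepFun η (fun ω t => Y t ω) P :=
      hind0.comp (φ := fun x : Unit → ℝ => x ()) (ψ := id) (measurable_pi_apply ()) measurable_id
    have h2 : IndepFun η Ψ P := by
      rw [IndepFun_iff_Indep] at h1 ⊢
      convert h1 using 1
      change MeasurableSpace.comap Ψ (MeasurableSpace.comap Subtype.val _) = _
      rw [MeasurableSpace.comap_comp]
      rfl
    exact h2.symm
  let Z : ℝ → ℝ → C × ℝ → ℝ := fun r t p => p.1.1 t.toNNReal + (p.2 + r) * sh s g t.toNNReal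
  have hZ : ∀ r, PP (Z r) := by
    intro r
    constructor
    · intro t
      have h1 : Measurable (fun p : C × ℝ => p.1.1 t.toNNReal) :=
        (measurable_pi_apply _).comp (measurable_subtype_coe.comp measurable_fst)
      exact h1.add ((measurable_snd.add_const r).mul_const _)
    · intro p
      have h1 := p.1.2
      have h2 := sh_cont s g
      have h3 := continuous_real_toNNReal
      simp only [Z]
      exact (h1.comp h3).add (continuous_const.mul (h2.comp h3))
  have hN := fun r => hA _ (Z r) (hZ r)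
  have hset : ∀ r : ℝ, {ω | A (fun t => pth V ω t + r * sh s g t.toNNReal)} =
      (fun ω => (Ψ ω, η ω)) ⁻¹' {p | A (fun t => Z r t p)} := by
    intro r
    ext ω
    simp only [mem_ofPred_eq, mem_preimage]
    have : (fun t => pth V ω t + r * sh s g t.toNNReal) = fun t => Z r t (Ψ ω, η ω) := by
      funext t
      simp only [pth, Z, Ψ, hY]
      ring
    rw [this]
  have hv : (Var[η; P]).toNNReal ≠ 0 := by
    rw [← covariance_self hηm.aemeasurable, hvarη]
    exact (Real.toNNReal_pos.2 (inv_pos.2 hσpos)).ne'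
  have hlawη : P.map η = gaussianReal (P[η]) (Var[η; P]).toNNReal := by
    have h1 : HasGaussianLaw η P := hJ.hasGaussianLaw_eval (Sum.inl ())
    exact h1.map_eq_gaussianReal
  have h0 : {ω | A (pth V ω)} = (fun ω => (Ψ ω, η ω)) ⁻¹' {p | A (fun t => Z 0 t p)} := by
    rw [← hset 0]
    simp only [zero_mul, add_zero]
  rw [h0, ← Measure.map_apply (hΨm.prodMk hηm) (hN 0),
    (indepFun_iff_map_prod_eq_prod_map_map hΨm.aemeasurable hηm.aemeasurable).1 hind,
    Measure.measure_prod_null (hN 0)] at hnull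
  rw [hset l, ← Measure.map_apply (hΨm.prodMk hηm) (hN l),
    (indepFun_iff_map_prod_eq_prod_map_map hΨm.aemeasurable hηm.aemeasurable).1 hind,
    Measure.measure_prod_null (hN l)]
  filter_upwards [hnull] with y hy
  simp only [Pi.zero_apply] at hy ⊢
  rw [hlawη] at hy ⊢
  have h1 : volume (Prod.mk y ⁻¹' {p : C × ℝ | A (fun t => Z 0 t p)}) = 0 :=
    gaussianReal_absolutelyContinuous' _ hv hy
  refine gaussianReal_absolutelyContinuous _ hv ?_
  have h2 : Prod.mk y ⁻¹' {p : C × ℝ | A (fun t => Z l t p)} =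
      (fun x => x + l) ⁻¹' (Prod.mk y ⁻¹' {p : C × ℝ | A (fun t => Z 0 t p)}) := by
    ext x
    simp only [mem_preimage, mem_ofPred_eq, Z, add_zero]
  rw [h2, measure_preimage_add_right]
  exact h1

lemma pos_DE [IsProbabilityMeasure P] {X : ℝ≥0 → Ω → ℝ} (hX : CBM P X) :
    0 < P {ω | DE 1 (1/2) 3 (path X ω)} := by
  rw [pos_iff_ne_zero]
  intro hzero
  have hMP : MeasP (fun w : ℝ → ℝ => DE 1 (1/2) 3 (fun t : ℝ≥0 => w t)) := by
    intro Ω' _ Y hY
    have h1 : ((1:ℝ≥0)/2) ≤ 3 := by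
      rw [← NNReal.coe_le_coe]; norm_num
    exact meas_DE (X := fun (t : ℝ≥0) ω => Y t ω) h1 (fun s _ => hY.meas _) 1
  have hval : ∀ t : ℝ≥0, sh {1/2} (fun _ => (-1:ℝ)) t = - ((min (1/2) t : ℝ≥0) : ℝ) := by
    intro t; unfold sh; rw [Finset.sum_singleton]; ring
  have hnull : P {ω | DE 1 (1/2) 3 (fun t : ℝ≥0 => pth X ω t)} = 0 := by
    have e : ∀ ω, (fun t : ℝ≥0 => pth X ω t) = path X ω := by
      intro ω; funext t; unfold pth path; rw [Real.toNNReal_coe]
    simp_rw [e]; exact hzero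
  have hall := qi_conv hX.meas (fun ω => hX.cont ω) hX.pre {1/2} (fun _ => (-1:ℝ))
    ⟨1/2, by rw [hval, min_self]; norm_num⟩ hMP hnull
  have hunion : P (⋃ n : ℕ, {ω | DE 1 (1/2) 3 (fun t : ℝ≥0 => pth X ω t + (n:ℝ) *
      sh {1/2} (fun _ => (-1:ℝ)) (t:ℝ).toNNReal)}) = 0 := measure_iUnion_null fun n => hall n
  have hcov : (univ : Set Ω) ⊆ ⋃ n : ℕ, {ω | DE 1 (1/2) 3 (fun t : ℝ≥0 => pth X ω t + (n:ℝ) *
      sh {1/2} (fun _ => (-1:ℝ)) (t:ℝ).toNNReal)} := by
    intro ω _
    rw [mem_iUnion]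
    set w : ℝ≥0 → ℝ := path X ω with hw
    have hcw : Continuous w := hX.cont ω
    obtain ⟨M, hM⟩ := (isCompact_Icc (a := (0:ℝ≥0)) (b := 3)).exists_bound_of_continuousOn
      hcw.continuousOn
    have h2 : {u | w u < 1} ∈ 𝓝 (0:ℝ≥0) := (isOpen_lt hcw continuous_const).mem_nhds (by
      show w 0 < 1
      rw [hw, hX.path_zero]; norm_num)
    obtain ⟨ε, hε, hball⟩ := Metric.mem_nhds_iff.mp h2
    obtain ⟨n, hn⟩ := exists_nat_gt (max (|M| / (min ε (1/2))) (2 * (|M| + 1)))
    refine ⟨n, ?_⟩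
    have hn1 : |M| / (min ε (1/2)) < n := lt_of_le_of_lt (le_max_left _ _) hn
    have hn2 : 2 * (|M| + 1) < n := lt_of_le_of_lt (le_max_right _ _) hn
    have hε' : 0 < min ε (1/2) := lt_min hε (by norm_num)
    rw [div_lt_iff₀ hε'] at hn1
    have hn0 : (0:ℝ) ≤ n := Nat.cast_nonneg n
    set w' : ℝ≥0 → ℝ := fun t => pth X ω t + (n:ℝ) * sh {1/2} (fun _ => (-1:ℝ)) (t:ℝ).toNNReal
      with hw'
    have hw'v : ∀ t : ℝ≥0, w' t = w t - n * ((min (1/2) t : ℝ≥0) : ℝ) := by
      intro t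
      simp only [hw', hval, Real.toNNReal_coe, pth, hw, path]; ring
    have hw'c : Continuous w' := by
      have : w' = fun t => w t - n * ((min (1/2) t : ℝ≥0) : ℝ) := funext hw'v
      rw [this]
      have h3 : Continuous (fun t : ℝ≥0 => ((min (1/2) t : ℝ≥0) : ℝ)) :=
        NNReal.continuous_coe.comp (continuous_const.min continuous_id)
      exact hcw.sub (continuous_const.mul h3)
    have hMb : ∀ t : ℝ≥0, t ≤ 3 → w t ≤ |M| := fun t ht => by
      have h3 := hM t ⟨zero_le, ht⟩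
      rw [Real.norm_eq_abs] at h3
      exact (le_abs_self _).trans (h3.trans (le_abs_self _))
    have hhalf : ((1:ℝ≥0)/2) ≤ 3 := by rw [← NNReal.coe_le_coe]; norm_num
    have hhalf' : (((1:ℝ≥0)/2 : ℝ≥0) : ℝ) = 1/2 := by norm_num
    show DE 1 (1/2) 3 w'
    constructor
    · obtain ⟨u, _, hu2, hu3⟩ := exists_mx hw'c (zero_le (a := 1/2))
      rw [hu3, hw'v, min_eq_right hu2]
      have hu2' : (u:ℝ) ≤ 1/2 := by rw [← hhalf']; exact hu2
      rcases lt_or_ge (u:ℝ) ε with h3 | h3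
      · have h4 : w u < 1 := hball (by
          rw [Metric.mem_ball, NNReal.dist_eq, NNReal.coe_zero, sub_zero,
            abs_of_nonneg (NNReal.coe_nonneg u)]; exact h3)
        have : 0 ≤ (n:ℝ) * u := mul_nonneg hn0 (NNReal.coe_nonneg u)
        linarith
      · have h4 := hMb u (hu2.trans hhalf)
        have h5 : (n:ℝ) * min ε (1/2) ≤ n * u :=
          mul_le_mul_of_nonneg_left ((min_le_left _ _).trans h3) hn0
        linarith
    · refine mx_le hhalf fun s hs1 hs2 => ?_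
      rw [hw'v, min_eq_left hs1, hhalf']
      have h4 := hMb s hs2
      linarith
  have := (measure_mono hcov).trans_eq hunion
  rw [measure_univ] at this
  exact absurd this (by simp)

lemma pos_hit [IsProbabilityMeasure P] {X : ℝ≥0 → Ω → ℝ} (hX : CBM P X) :
    0 < P {ω | 1 ≤ mx (path X ω) 0 1} := by
  have h1 : {ω | X 1 ω ∈ Ici (1:ℝ)} ⊆ {ω | 1 ≤ mx (path X ω) 0 1} := by
    intro ω hω
    exact (mem_Ici.1 hω).trans (le_mx (hX.cont ω) zero_le le_rfl)
  refine lt_of_lt_of_le ?_ (measure_mono h1)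
  have h2 : P {ω | X 1 ω ∈ Ici (1:ℝ)} = gaussianReal 0 1 (Ici 1) := by
    rw [← (hX.pre.hasLaw_eval 1).map_eq, Measure.map_apply (hX.meas 1) measurableSet_Ici]
    rfl
  rw [h2, pos_iff_ne_zero]
  intro h3
  have := gaussianReal_absolutelyContinuous' 0 (one_ne_zero) h3
  rw [Real.volume_Ici] at this
  exact absurd this (by simp)

/-! ### scaling -/

/-- scaled path -/
noncomputable def sc (r : ℝ≥0) (w : ℝ≥0 → ℝ) : ℝ≥0 → ℝ := fun t => (r:ℝ)⁻¹ * w (r^2 * t)

lemma mx_scale {w : ℝ≥0 → ℝ} (hw : Continuous w) {r : ℝ≥0} (hr : 0 < r) {a b : ℝ≥0} (hab : a ≤ b) :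
    mx w (r^2 * a) (r^2 * b) = r * mx (sc r w) a b := by
  have hr' : (0:ℝ) < r := hr
  have hwc : Continuous (sc r w) := by unfold sc; fun_prop
  apply le_antisymm
  · refine mx_le (by gcongr) fun s hs1 hs2 => ?_
    have h1 : a ≤ s / r^2 := by rw [le_div_iff₀ (by positivity), mul_comm]; exact hs1
    have h2 : s / r^2 ≤ b := by rw [div_le_iff₀ (by positivity), mul_comm]; exact hs2
    have h3 := le_mx hwc h1 h2
    unfold sc at h3
    rw [mul_div_cancel₀ _ (by positivity)] at h3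
    have h4 := mul_le_mul_of_nonneg_left h3 hr'.le
    rw [← mul_assoc, mul_inv_cancel₀ hr'.ne', one_mul] at h4
    exact h4
  · rw [← le_div_iff₀' hr']
    refine mx_le hab fun s hs1 hs2 => ?_
    rw [le_div_iff₀' hr']
    unfold sc
    rw [← mul_assoc, mul_inv_cancel₀ hr'.ne', one_mul]
    exact le_mx hw (by gcongr) (by gcongr)

lemma TN_scale {w : ℝ≥0 → ℝ} (hw : Continuous w) {r : ℝ≥0} (hr : 0 < r)
    (hit : ∃ t, (r:ℝ) ≤ w t) : TN r w = r^2 * TN 1 (sc r w) := by
  have hr' : (0:ℝ) < r := hr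
  have hwc : Continuous (sc r w) := by unfold sc; fun_prop
  have hit' : ∃ t, (1:ℝ) ≤ sc r w t := by
    obtain ⟨t, ht⟩ := hit
    refine ⟨t / r^2, ?_⟩
    unfold sc
    rw [mul_div_cancel₀ _ (by positivity), ← div_eq_inv_mul, le_div_iff₀ hr', one_mul]
    exact ht
  refine eq_of_forall_ge_iff fun c => ?_
  rw [TN_le_iff hw hit]
  have h1 : r^2 * TN 1 (sc r w) ≤ c ↔ TN 1 (sc r w) ≤ c / r^2 := by
    rw [le_div_iff₀ (by positivity), mul_comm]
  rw [h1, TN_le_iff hwc hit']
  have h2 := mx_scale hw hr (zero_le (a := c / r^2))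
  rw [mul_zero, mul_div_cancel₀ _ (by positivity)] at h2
  rw [h2]
  constructor
  · intro h
    have : (r:ℝ) * 1 ≤ r * mx (sc r w) 0 (c / r^2) := by rw [mul_one]; exact h
    exact le_of_mul_le_mul_left this hr'
  · intro h
    have := mul_le_mul_of_nonneg_left h hr'.le
    rwa [mul_one] at this

lemma DE_scale {w : ℝ≥0 → ℝ} (hw : Continuous w) {r : ℝ≥0} (hr : 0 < r) {c1 c2 : ℝ≥0}
    (hc : c1 ≤ c2) : DE r (r^2 * c1) (r^2 * c2) w ↔ DE 1 c1 c2 (sc r w) := by
  have hr' : (0:ℝ) < r := hr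
  unfold DE
  have h1 := mx_scale hw hr (zero_le (a := c1))
  rw [mul_zero] at h1
  rw [h1, mx_scale hw hr hc]
  constructor
  · rintro ⟨h2, h3⟩
    constructor
    · have : (r:ℝ) * mx (sc r w) 0 c1 < r * 1 := by rw [mul_one]; exact h2
      exact lt_of_mul_lt_mul_left this hr'.le
    · have : (r:ℝ) * mx (sc r w) c1 c2 ≤ r * (-1) := by linarith
      exact le_of_mul_le_mul_left this hr'
  · rintro ⟨h2, h3⟩
    constructor
    · have := mul_lt_mul_of_pos_left h2 hr'
      linarith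
    · have := mul_le_mul_of_nonneg_left h3 hr'.le
      linarith

lemma CBM_sc [IsProbabilityMeasure P] {X : ℝ≥0 → Ω → ℝ} (hX : CBM P X) {r : ℝ≥0} (hr : 0 < r) :
    CBM P (fun t ω => (r:ℝ)⁻¹ * X (r^2 * t) ω) := by
  refine ⟨fun t => (hX.meas _).const_mul _, fun ω => ?_, fun ω => ?_, ?_⟩
  · have := hX.cont ω
    have h2 : Continuous (fun t => (r:ℝ)⁻¹ * path X ω (r^2 * t)) := by fun_prop
    exact h2
  · rw [mul_zero, hX.zero, mul_zero]
  · have := hX.pre.smul (c := r^2) (by positivity)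
    have e : √((r^2 : ℝ≥0) : ℝ) = r := by
      push_cast; exact Real.sqrt_sq (NNReal.coe_nonneg r)
    rw [e] at this
    exact this

/-- the constants do not depend on the scale -/
lemma nuq_scale [IsProbabilityMeasure P] {X : ℝ≥0 → Ω → ℝ} (hX : CBM P X) {r : ℝ≥0} (hr : 0 < r)
    (x : Bool × Fin 3) : nuq P r (r^2 * (1/2)) (r^2 * 3) X (EC (r^2 * 1) (r^2 * 3) x) =
      nuq P 1 (1/2) 3 X (EC 1 3 x) := by
  have hr2 : (0:ℝ≥0) < r^2 := by positivity
  have hY := CBM_sc hX hr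
  unfold nuq
  have hm1 : Measurable (fun ω => qq r (r^2 * (1/2)) (r^2 * 3) (path X ω)) :=
    (measurable_qq _ _ _).comp (measurable_path hX.meas)
  have hm2 : Measurable (fun ω => qq 1 (1/2) 3 (path X ω)) :=
    (measurable_qq _ _ _).comp (measurable_path hX.meas)
  rw [Measure.map_apply hm1 (meas_EC _ _ _), Measure.map_apply hm2 (meas_EC _ _ _)]
  have h1 : P ((fun ω => qq 1 (1/2) 3 (path X ω)) ⁻¹' EC 1 3 x) =
      P {ω | path (fun t ω => (r:ℝ)⁻¹ * X (r^2 * t) ω) ω ∈ (qq 1 (1/2) 3) ⁻¹' EC 1 3 x} :=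
    law_q hX hY (measurable_qq _ _ _ (meas_EC _ _ _))
  rw [h1]
  refine measure_congr ?_
  filter_upwards [hits_ae hX (r:ℝ)] with ω hω
  have hcw := hX.cont ω
  have hT := TN_scale hcw hr hω
  have hhalf : ((1:ℝ≥0)/2) ≤ 3 := by rw [← NNReal.coe_le_coe]; norm_num
  have hD := DE_scale hcw hr hhalf
  have hsc : path (fun t ω => (r:ℝ)⁻¹ * X (r^2 * t) ω) ω = sc r (path X ω) := rfl
  refine propext ?_
  show qq r (r^2 * (1/2)) (r^2 * 3) (path X ω) ∈ EC (r^2 * 1) (r^2 * 3) x ↔
    qq 1 (1/2) 3 (path (fun t ω => (r:ℝ)⁻¹ * X (r^2 * t) ω) ω) ∈ EC 1 3 x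
  rw [hsc]
  unfold EC qq
  split_ifs
  · simp only [mem_ofPred_eq]
    rw [hD, hT, mul_le_mul_iff_right₀ hr2]
  · simp only [mem_ofPred_eq]
    rw [hT, mul_le_mul_iff_right₀ hr2]

lemma nuq_pos [IsProbabilityMeasure P] {X : ℝ≥0 → Ω → ℝ} (hX : CBM P X) (x : Bool × Fin 3) :
    0 < nuq P 1 (1/2) 3 X (EC 1 3 x) := by
  unfold nuq
  have hm2 : Measurable (fun ω => qq 1 (1/2) 3 (path X ω)) :=
    (measurable_qq _ _ _).comp (measurable_path hX.meas)
  rw [Measure.map_apply hm2 (meas_EC _ _ _)]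
  by_cases hx : x.2 = 2
  · refine lt_of_lt_of_le (pos_DE hX) (measure_mono_ae ?_)
    filter_upwards [hits_ae hX 1] with ω hω h1
    have h1' : DE 1 (1/2) 3 (path X ω) := h1
    show qq 1 (1/2) 3 (path X ω) ∈ EC 1 3 x
    unfold EC qq
    rw [if_pos hx]
    refine ⟨h1', ?_⟩
    by_contra hcon
    have h2 : TN 1 (path X ω) < 3 := not_le.1 hcon
    have h3 := apply_TN (hX.cont ω) (by rw [hX.path_zero]; norm_num) hω
    have h4 := DE.lt one_pos (hX.cont ω) h1' h2.le
    linarith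
  · refine lt_of_lt_of_le (pos_hit hX) (measure_mono_ae ?_)
    filter_upwards [hits_ae hX 1] with ω hω h1
    show qq 1 (1/2) 3 (path X ω) ∈ EC 1 3 x
    unfold EC qq
    rw [if_neg hx]
    exact (TN_le_iff (hX.cont ω) hω 1).2 h1

/-- **uniform lower bound** -/
theorem uniform [IsProbabilityMeasure P] {X : ℝ≥0 → Ω → ℝ} (hX : CBM P X) :
    ∃ κ > (0:ℝ≥0∞), ∀ r : ℝ≥0, 0 < r → ∀ N : ℕ,
      κ ≤ (P.prod P) (⋃ j ∈ Finset.range (N + 1),
        EV r (r^2 * (1/2)) (r^2 * 3) (r^2 * 1) X N j) := by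
  refine ⟨∏ x, nuq P 1 (1/2) 3 X (EC 1 3 x), ?_, fun r hr N => ?_⟩
  · exact CanonicallyOrderedAdd.prod_pos.2 fun x _ => nuq_pos hX x
  · have h1 : ∏ x, nuq P 1 (1/2) 3 X (EC 1 3 x) =
        ∏ x, nuq P r (r^2 * (1/2)) (r^2 * 3) X (EC (r^2 * 1) (r^2 * 3) x) :=
      Finset.prod_congr rfl fun x _ => (nuq_scale hX hr x).symm
    rw [h1]
    have hr2 : (0:ℝ≥0) < r^2 := by positivity
    refine prob_union (by exact_mod_cast hr) ?_ hX (by positivity) ?_ N
    · gcongr
      rw [← NNReal.coe_le_coe]; norm_num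
    · rw [mul_left_comm]
      refine (mul_lt_mul_iff_right₀ hr2).2 ?_
      rw [← NNReal.coe_lt_coe]; norm_num

end Pool.Agent.V11191.Comp
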