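import Pool.Agent.V11191.Comp.Gap
import Pool.Agent.V11191.Comp.Pos

/-!
# The accumulation event and its probability for independent paths
-/

open Set MeasureTheory Filter Topology ProbabilityTheory
open scoped NNReal ENNReal
open Pool.Agent.TH970

namespace Pool.Agent.V11191.Comp

/-- `max_{s ≤ ℓ} (w s + w' (ℓ - s))` -/
noncomputable def Qf (w w' : ℝ≥0 → ℝ) (ℓ : ℝ≥0) : ℝ :=
  mx (fun θ => w (θ * ℓ) + w' (ℓ - θ * ℓ)) 0 1

/-- running maximum of `Qf` -/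
noncomputable def MQ (w w' : ℝ≥0 → ℝ) (p : ℝ≥0) : ℝ := mx (Qf w w') 0 p

lemma measurable_Qf (ℓ : ℝ≥0) : Measurable (fun q : (ℝ≥0 → ℝ) × (ℝ≥0 → ℝ) => Qf q.1 q.2 ℓ) := by
  unfold Qf mx
  exact Measurable.iSup fun n => by fun_prop

lemma measurable_MQ (p : ℝ≥0) : Measurable (fun q : (ℝ≥0 → ℝ) × (ℝ≥0 → ℝ) => MQ q.1 q.2 p) := by
  unfold MQ
  have : ∀ q : (ℝ≥0 → ℝ) × (ℝ≥0 → ℝ), mx (Qf q.1 q.2) 0 p =
      ⨆ n, Qf q.1 q.2 (max 0 (min (dq n) p)) := fun q => rfl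
  simp_rw [this]
  exact Measurable.iSup fun n => measurable_Qf _

section
variable {w w' : ℝ≥0 → ℝ}

lemma Qf_inner (hw : Continuous w) (hw' : Continuous w') (ℓ : ℝ≥0) :
    Continuous (fun θ : ℝ≥0 => w (θ * ℓ) + w' (ℓ - θ * ℓ)) := by
  have h1 : Continuous (fun θ : ℝ≥0 => θ * ℓ) := by fun_prop
  exact (hw.comp h1).add (hw'.comp (continuous_const.sub h1))

lemma le_Qf (hw : Continuous w) (hw' : Continuous w') {ℓ s : ℝ≥0} (hs : s ≤ ℓ) :
    w s + w' (ℓ - s) ≤ Qf w w' ℓ := by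
  rcases eq_or_ne ℓ 0 with h0 | h0
  · subst h0
    have hs0 : s = 0 := nonpos_iff_eq_zero.1 hs
    subst hs0
    have := le_mx (Qf_inner hw hw' 0) (zero_le (a := (0:ℝ≥0))) (zero_le (a := (1:ℝ≥0)))
    unfold Qf
    simpa using this
  · have := le_mx (Qf_inner hw hw' ℓ) (zero_le (a := s / ℓ)) (div_le_one_of_le₀ hs zero_le)
    simp only [div_mul_cancel₀ s h0] at this
    exact this

lemma exists_Qf (hw : Continuous w) (hw' : Continuous w') (ℓ : ℝ≥0) :
    ∃ s ≤ ℓ, Qf w w' ℓ = w s + w' (ℓ - s) := by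
  obtain ⟨θ, _, h2, h3⟩ := exists_mx (Qf_inner hw hw' ℓ) (zero_le (a := (1:ℝ≥0)))
  exact ⟨θ * ℓ, mul_le_of_le_one_left zero_le h2, h3⟩

lemma Qf_continuous (hw : Continuous w) (hw' : Continuous w') : Continuous (Qf w w') := by
  have h1 : Qf w w' = fun ℓ => sSup ((fun θ : ℝ≥0 => w (θ * ℓ) + w' (ℓ - θ * ℓ)) '' Icc 0 1) := by
    funext ℓ
    have hc := Qf_inner hw hw' ℓ
    obtain ⟨θ, h2, h3, h4⟩ := exists_mx hc (zero_le (a := (1:ℝ≥0)))
    symm
    unfold Qf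
    rw [h4]
    refine IsGreatest.csSup_eq ⟨⟨θ, ⟨h2, h3⟩, rfl⟩, ?_⟩
    rintro _ ⟨θ', ⟨_, h5⟩, rfl⟩
    rw [← h4]
    exact le_mx hc zero_le h5
  rw [h1]
  refine IsCompact.continuous_sSup (f := fun (ℓ θ : ℝ≥0) => w (θ * ℓ) + w' (ℓ - θ * ℓ))
    isCompact_Icc ?_
  have h2 : Continuous (fun p : ℝ≥0 × ℝ≥0 => p.2 * p.1) := by fun_prop
  exact (hw.comp h2).add (hw'.comp (continuous_fst.sub h2))

lemma le_MQ_iff (hw : Continuous w) (hw' : Continuous w') {p : ℝ≥0} {b : ℝ} :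
    b ≤ MQ w w' p ↔ ∃ ℓ ≤ p, b ≤ Qf w w' ℓ := by
  have hc := Qf_continuous hw hw'
  constructor
  · intro h
    obtain ⟨ℓ, _, h2, h3⟩ := exists_mx hc (zero_le (a := p))
    exact ⟨ℓ, h2, by rw [← h3]; exact h⟩
  · rintro ⟨ℓ, h1, h2⟩
    exact h2.trans (le_mx hc zero_le h1)

end

/-- the accumulation event -/
def AA : Set (((ℝ≥0 → ℝ) × (ℝ≥0 → ℝ)) × ℝ) :=
  {q | 0 < q.2 ∧ (∃ m : ℕ, dq m < 1/3 ∧ q.2 ≤ MQ q.1.1 q.1.2 (dq m)) ∧
    ∀ m m' : ℕ, dq m < dq m' → dq m' ≤ 1/3 → q.2 ≤ MQ q.1.1 q.1.2 (dq m) →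
      ∃ k k' : ℕ, dq k < dq k' ∧ dq k' ≤ dq m' ∧ q.2 ≤ MQ q.1.1 q.1.2 (dq k) ∧
        Qf q.1.1 q.1.2 (dq k') < q.2}

lemma meas_AA : MeasurableSet AA := by
  have hM : ∀ p, Measurable (fun q : ((ℝ≥0 → ℝ) × (ℝ≥0 → ℝ)) × ℝ => MQ q.1.1 q.1.2 p) :=
    fun p => (measurable_MQ p).comp measurable_fst
  have hQ : ∀ p, Measurable (fun q : ((ℝ≥0 → ℝ) × (ℝ≥0 → ℝ)) × ℝ => Qf q.1.1 q.1.2 p) :=
    fun p => (measurable_Qf p).comp measurable_fst
  have hleM : ∀ p, MeasurableSet {q : ((ℝ≥0 → ℝ) × (ℝ≥0 → ℝ)) × ℝ | q.2 ≤ MQ q.1.1 q.1.2 p} :=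
    fun p => measurableSet_le measurable_snd (hM p)
  have hltQ : ∀ p, MeasurableSet {q : ((ℝ≥0 → ℝ) × (ℝ≥0 → ℝ)) × ℝ | Qf q.1.1 q.1.2 p < q.2} :=
    fun p => measurableSet_lt (hQ p) measurable_snd
  have hconst : ∀ c : Prop, MeasurableSet {q : ((ℝ≥0 → ℝ) × (ℝ≥0 → ℝ)) × ℝ | c} :=
    fun c => MeasurableSet.const c
  unfold AA
  refine MeasurableSet.inter (measurableSet_lt measurable_const measurable_snd) ?_
  refine MeasurableSet.inter ?_ ?_
  · exact meas_ex fun m => (hconst _).inter (hleM _)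
  · refine meas_fa fun m => meas_fa fun m' => ?_
    have e : {q : ((ℝ≥0 → ℝ) × (ℝ≥0 → ℝ)) × ℝ | dq m < dq m' → dq m' ≤ 1/3 →
        q.2 ≤ MQ q.1.1 q.1.2 (dq m) →
      ∃ k k' : ℕ, dq k < dq k' ∧ dq k' ≤ dq m' ∧ q.2 ≤ MQ q.1.1 q.1.2 (dq k) ∧
        Qf q.1.1 q.1.2 (dq k') < q.2} = {q | dq m < dq m'}ᶜ ∪ ({q | dq m' ≤ 1/3}ᶜ ∪
        ({q | q.2 ≤ MQ q.1.1 q.1.2 (dq m)}ᶜ ∪ {q | ∃ k k' : ℕ, dq k < dq k' ∧ dq k' ≤ dq m' ∧
          q.2 ≤ MQ q.1.1 q.1.2 (dq k) ∧ Qf q.1.1 q.1.2 (dq k') < q.2})) := by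
      ext q
      simp only [mem_ofPred_eq, mem_union, mem_compl_iff, imp_iff_not_or]
    rw [e]
    refine (hconst _).compl.union ((hconst _).compl.union ((hleM _).compl.union ?_))
    exact meas_ex fun k => meas_ex fun k' => (hconst _).inter ((hconst _).inter
      ((hleM _).inter (hltQ _)))

/-- the deterministic criterion -/
lemma mem_AA {w w' : ℝ≥0 → ℝ} (hw : Continuous w) (hw' : Continuous w') {b : ℝ} (hb : 0 < b)
    (h0 : ∃ ℓ ≤ (1/4 : ℝ≥0), b ≤ Qf w w' ℓ)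
    (h : ∀ δ : ℝ≥0, 0 < δ → ∃ f v : ℝ≥0, 0 < v ∧ v ≤ δ ∧ (∀ ℓ, ℓ + v ≤ f → Qf w w' ℓ < b) ∧
      b ≤ Qf w w' f ∧ Qf w w' (f + v) < b) : ((w, w'), b) ∈ AA := by
  have hc := Qf_continuous hw hw'
  refine ⟨hb, ?_, ?_⟩
  · obtain ⟨ℓ, h1, h2⟩ := h0
    have h3 : ((1:ℝ≥0)/4) < 1/3 := by rw [← NNReal.coe_lt_coe]; norm_num
    obtain ⟨m, h4, h5⟩ := exists_dq h3
    exact ⟨m, h5, (le_MQ_iff hw hw').2 ⟨ℓ, h1.trans h4.le, h2⟩⟩
  · intro m m' hmm hm' hle
    obtain ⟨ℓ0, h1, h2⟩ := (le_MQ_iff hw hw').1 hle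
    have hδ : 0 < (dq m' - dq m) / 2 := by
      have : 0 < dq m' - dq m := tsub_pos_of_lt hmm
      positivity
    obtain ⟨f, v, hv0, hvδ, g1, g2, g3⟩ := h _ hδ
    have hf : f < ℓ0 + v := by
      by_contra hcon
      have := g1 ℓ0 (not_lt.1 hcon)
      exact absurd h2 (not_le.2 this)
    have hfv : f + v < dq m' := by
      have e1 : f + v < ℓ0 + v + v := by gcongr
      have e2 : ℓ0 + v + v ≤ dq m + (dq m' - dq m) := by
        rw [add_assoc]
        refine add_le_add h1 ?_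
        calc v + v ≤ (dq m' - dq m) / 2 + (dq m' - dq m) / 2 := add_le_add hvδ hvδ
          _ = dq m' - dq m := add_halves _
      rw [add_tsub_cancel_of_le hmm.le] at e2
      exact lt_of_lt_of_le e1 e2
    -- choose the two dense times
    have hopen : {ℓ | Qf w w' ℓ < b} ∈ 𝓝 (f + v) := (isOpen_lt hc continuous_const).mem_nhds g3
    obtain ⟨ε, hε, hball⟩ := Metric.mem_nhds_iff.mp hopen
    have hlow : max f (f + v - (ε/2).toNNReal) < f + v := by
      refine max_lt (lt_add_of_pos_right _ hv0) (tsub_lt_self (by positivity) ?_)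
      rw [Real.toNNReal_pos]; positivity
    obtain ⟨k', h4, h5⟩ := exists_dq hlow
    obtain ⟨k, h6, h7⟩ := exists_dq (lt_of_le_of_lt (le_max_left _ _) h4)
    refine ⟨k, k', h7, (h5.trans hfv).le, (le_MQ_iff hw hw').2 ⟨f, h6.le, g2⟩, ?_⟩
    apply hball
    rw [Metric.mem_ball, NNReal.dist_eq, abs_sub_comm, abs_of_nonneg (by
      have : (dq k' : ℝ) ≤ (f + v : ℝ≥0) := h5.le
      linarith)]
    have h8 : f + v ≤ dq k' + (ε/2).toNNReal := by
      rw [← tsub_le_iff_right]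
      exact (le_max_right _ _).trans h4.le
    have h9 : ((f + v : ℝ≥0) : ℝ) ≤ dq k' + ((ε/2).toNNReal : ℝ) := by
      rw [← NNReal.coe_add]; exact h8
    rw [Real.coe_toNNReal _ (by positivity)] at h9
    linarith

variable {Ω : Type*} [mΩ : MeasurableSpace Ω] {P : Measure Ω}

/-- a good configuration gives the local picture -/
lemma local_picture {X : ℝ≥0 → Ω → ℝ} (hq : QP X) {p : Ω × Ω} (hu : UA (path X p.1))
    (hu' : UA (path X p.2)) {r : ℝ≥0} (hr : 0 < r) {N j : ℕ} (hj : j ≤ N)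
    (hp : p ∈ EV r (r^2 * (1/2)) (r^2 * 3) (r^2 * 1) X N j) :
    ∃ f : ℝ≥0, (∀ ℓ, ℓ + r^2 ≤ f → Qf (path X p.1) (path X p.2) ℓ < (N + 4) * r) ∧
      (N + 4) * r ≤ Qf (path X p.1) (path X p.2) f ∧
      Qf (path X p.1) (path X p.2) (f + r^2) < (N + 4) * r := by
  have hr' : (0:ℝ) < r := hr
  obtain ⟨hg, hd, hd'⟩ := EV_good hj hp
  have hc := hq.cont p.1
  have hc' := hq.cont p.2
  have hx := pas hr' hc (hq.zero p.1) hu
  have hx' := pas hr' hc' (hq.zero p.2) hu'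
  -- identify the durations
  have hQF : ∀ i, ((QF r (r^2 * (1/2)) (r^2 * 3) X (false, i) p).1 : ℝ) = uu r X p.1 i := fun i => rfl
  have hQF' : ∀ i, ((QF r (r^2 * (1/2)) (r^2 * 3) X (true, i) p).1 : ℝ) = uu r X p.2 i := fun i => rfl
  simp only [hQF, hQF'] at hg
  set u : ℕ → ℝ := fun i => (uu r X p.1 i : ℝ) with hu_def
  set u' : ℕ → ℝ := fun i => (uu r X p.2 i : ℝ) with hu'_def
  set v : ℝ := (r:ℝ)^2 with hv
  have hv0 : 0 < v := by positivity
  have e1 : ((r^2 * 1 : ℝ≥0) : ℝ) = v := by push_cast; rw [hv]; ring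
  have e3 : ((r^2 * 3 : ℝ≥0) : ℝ) = 3 * v := by push_cast; rw [hv]; ring
  rw [e1, e3] at hg
  have hD : DE r (r^2 * (1/2)) (r^2 * 3) (path (it r (j+2) X) p.1) := hd
  have hD' : DE r (r^2 * (1/2)) (r^2 * 3) (path (it r (N - j + 2) X) p.2) := hd'
  -- local bounds from the special event
  have hloc : ∀ {ω : Ω} {i : ℕ}, Continuous (path X ω) → path X ω 0 = 0 → UA (path X ω) →
      DE r (r^2 * (1/2)) (r^2 * 3) (path (it r i X) ω) →
      (∀ h, 0 ≤ h → h ≤ 3 * v → path X ω (TT (fun k => (uu r X ω k : ℝ)) i + h).toNNReal <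
        (i + 1) * r) ∧
      (∀ h, v / 2 ≤ h → h ≤ 3 * v → path X ω (TT (fun k => (uu r X ω k : ℝ)) i + h).toNNReal ≤
        (i - 1) * r) := by
    intro ω i hc h0 hu hDE
    have hci := it_cont (a := (r:ℝ)) hc i
    have hlev := UU_level hr' hc h0 hu i
    have hval : ∀ h : ℝ, 0 ≤ h → path X ω (TT (fun k => (uu r X ω k : ℝ)) i + h).toNNReal =
        i * r + path (it r i X) ω h.toNNReal := by
      intro h hh
      rw [it_apply, ← UU_coe, h0, Real.toNNReal_add (NNReal.coe_nonneg _) hh, Real.toNNReal_coe,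
        hlev]
      simp
    constructor
    · intro h hh0 hh1
      rw [hval h hh0]
      have hle : h.toNNReal ≤ r^2 * 3 := by
        rw [← NNReal.coe_le_coe, Real.coe_toNNReal _ hh0, e3]; exact hh1
      have := DE.lt hr' hci hDE hle
      linarith
    · intro h hh0 hh1
      have hh : 0 ≤ h := by linarith
      rw [hval h hh]
      have hle : h.toNNReal ≤ r^2 * 3 := by
        rw [← NNReal.coe_le_coe, Real.coe_toNNReal _ hh, e3]; exact hh1
      have hge : r^2 * (1/2) ≤ h.toNNReal := by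
        rw [← NNReal.coe_le_coe, Real.coe_toNNReal _ hh]
        push_cast
        rw [hv] at hh0
        linarith
      have := (le_mx hci hge hle).trans hDE.2
      linarith
  obtain ⟨a1, a2⟩ := hloc hc (hq.zero p.1) hu hD
  obtain ⟨b1, b2⟩ := hloc hc' (hq.zero p.2) hu' hD'
  have hcast : ((N - j + 2 : ℕ) : ℝ) = N - j + 2 := by
    rw [Nat.cast_add, Nat.cast_sub hj]; norm_num
  have a1' : ∀ h, 0 ≤ h → h ≤ 3 * v → path X p.1 (TT u (j + 2) + h).toNNReal < (j + 3) * r := by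
    intro h h1 h2
    have := a1 h h1 h2
    push_cast at this; linarith
  have a2' : ∀ h, v / 2 ≤ h → h ≤ 3 * v → path X p.1 (TT u (j + 2) + h).toNNReal ≤ (j + 1) * r := by
    intro h h1 h2
    have := a2 h h1 h2
    push_cast at this; linarith
  have b1' : ∀ h, 0 ≤ h → h ≤ 3 * v →
      path X p.2 (TT u' (N - j + 2) + h).toNNReal < (N - j + 3) * r := by
    intro h h1 h2
    have := b1 h h1 h2
    rw [hcast] at this; linarith
  have b2' : ∀ h, v / 2 ≤ h → h ≤ 3 * v →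
      path X p.2 (TT u' (N - j + 2) + h).toNNReal ≤ (N - j + 1) * r := by
    intro h h1 h2
    have := b2 h h1 h2
    rw [hcast] at this; linarith
  -- the position
  set f : ℝ≥0 := UU r X p.1 (j + 2) + UU r X p.2 (N - j + 2) with hf
  have hfc : (f : ℝ) = TT u (j + 2) + TT u' (N - j + 2) := by
    rw [hf, NNReal.coe_add, UU_coe, UU_coe]
  have hsub : ∀ {s ℓ : ℝ≥0}, s ≤ ℓ → ((ℓ:ℝ) - s).toNNReal = ℓ - s := by
    intro s ℓ hsl
    rw [← NNReal.coe_sub hsl, Real.toNNReal_coe]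
  refine ⟨f, ?_, ?_, ?_⟩
  · intro ℓ hℓ
    obtain ⟨s, hs, hsQ⟩ := exists_Qf hc hc' ℓ
    rw [hsQ]
    have hℓ' : (ℓ:ℝ) + v ≤ f := by
      have : ((ℓ + r^2 : ℝ≥0) : ℝ) ≤ f := hℓ
      push_cast at this; rw [hv]; exact this
    have := gap_before hx hx' hg hv0 (s := s) (ℓ := ℓ) (NNReal.coe_nonneg s) hs
      (by rw [hfc] at hℓ'; linarith)
    simp only [Real.toNNReal_coe] at this
    rw [hsub hs] at this
    exact this
  · have hs : UU r X p.1 (j + 2) ≤ f := by rw [hf]; simp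
    have := le_Qf hc hc' hs
    have e4 : f - UU r X p.1 (j + 2) = UU r X p.2 (N - j + 2) := by
      rw [hf, add_tsub_cancel_left]
    rw [e4, UU_level hr' hc (hq.zero p.1) hu, UU_level hr' hc' (hq.zero p.2) hu', hcast] at this
    push_cast at this
    linarith
  · obtain ⟨s, hs, hsQ⟩ := exists_Qf hc hc' (f + r^2)
    rw [hsQ]
    have e5 : ((f + r^2 : ℝ≥0) : ℝ) = TT u (j + 2) + TT u' (N - j + 2) + v := by
      rw [NNReal.coe_add, hfc]; push_cast; rfl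
    have := gap_after hr' hx hx' hg hv0 a1' a2' b1' b2' (s := s) (NNReal.coe_nonneg s)
      (ℓ := ((f + r^2 : ℝ≥0) : ℝ)) hs e5
    simp only [Real.toNNReal_coe] at this
    rw [hsub hs] at this
    exact this

lemma UA_ae [IsProbabilityMeasure P] {X : ℝ≥0 → Ω → ℝ} (hX : CBM P X) :
    ∀ᵐ ω ∂P, UA (path X ω) := by
  have h : ∀ᵐ ω ∂P, ∀ n : ℕ, ∃ t, (n:ℝ) ≤ X t ω := by
    rw [ae_all_iff]; exact fun n => hits_ae hX n
  filter_upwards [h] with ω hω M
  obtain ⟨n, hn⟩ := exists_nat_gt M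
  obtain ⟨t, ht⟩ := hω n
  exact ⟨t, hn.le.trans ht⟩

/-- **for small `b` the accumulation event has positive probability** -/
theorem pos_AA [IsProbabilityMeasure P] {X : ℝ≥0 → Ω → ℝ} (hX : CBM P X) :
    ∃ b2 : ℝ, 0 < b2 ∧ ∀ b : ℝ, 0 < b → b < b2 →
      (P.prod P) {p | ((path X p.1, path X p.2), b) ∈ AA} ≠ 0 := by
  obtain ⟨κ, hκ0, hκ⟩ := uniform hX
  have hκ1 : κ ≤ 1 := (hκ 1 one_pos 0).trans prob_le_one
  have hκt : κ ≠ ⊤ := ne_top_of_le_ne_top ENNReal.one_ne_top hκ1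
  have hκr : 0 < κ.toReal := ENNReal.toReal_pos hκ0.ne' hκt
  set cc : ℝ := (√(2 * Real.pi * ((1/4 : ℝ≥0) : ℝ)))⁻¹ * 2 with hcc
  have hcc0 : 0 < cc := by positivity
  refine ⟨κ.toReal / 2 / cc, by positivity, fun b hb hb2 => ?_⟩
  have hquart : (0:ℝ≥0) < 1/4 := by positivity
  -- the passage to b is fast
  have hfast : P {ω | mx (path X ω) 0 (1/4) ≤ b} ≤ ENNReal.ofReal (κ.toReal / 2) := by
    rw [mx_law hX hquart hb.le]
    have h1 : P {ω | |X (1/4) ω| ≤ b} = gaussianReal 0 (1/4) (Icc (-b) b) := by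
      rw [← (hX.pre.hasLaw_eval (1/4)).map_eq, Measure.map_apply (hX.meas _) measurableSet_Icc]
      congr 1
      ext ω
      simp only [mem_ofPred_eq, mem_preimage, mem_Icc, abs_le]
    rw [h1]
    refine (Knight.gauss_small (1/4) hquart.ne' hb.le).trans (ENNReal.ofReal_le_ofReal ?_)
    rw [lt_div_iff₀ hcc0] at hb2
    rw [hcc] at hb2
    linarith
  -- scales
  set rr : ℕ → ℝ≥0 := fun N => b.toNNReal / (N + 4) with hrr
  have hrpos : ∀ N, 0 < rr N := fun N => by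
    have : 0 < b.toNNReal := Real.toNNReal_pos.2 hb
    simp only [hrr]; positivity
  have hrb : ∀ N : ℕ, ((N:ℝ) + 4) * rr N = b := by
    intro N
    simp only [hrr]
    push_cast
    rw [Real.coe_toNNReal _ hb.le]
    field_simp
  set G : ℕ → Set (Ω × Ω) := fun N => (⋃ j ∈ Finset.range (N + 1),
    EV (rr N) ((rr N)^2 * (1/2)) ((rr N)^2 * 3) ((rr N)^2 * 1) X N j) ∩
    {p | b < mx (path X p.1) 0 (1/4)} with hG
  have hmxm : Measurable (fun p : Ω × Ω => mx (path X p.1) 0 (1/4)) :=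
    ((measurable_mx 0 (1/4)).comp (measurable_path hX.meas)).comp measurable_fst
  have hGm : ∀ N, MeasurableSet (G N) := fun N =>
    (Finset.measurableSet_biUnion _ fun j _ => meas_EV (CBM.qp hX) N j).inter
      (measurableSet_lt measurable_const hmxm)
  have hGp : ∀ N, ENNReal.ofReal (κ.toReal / 2) ≤ (P.prod P) (G N) := by
    intro N
    have h1 := hκ (rr N) (hrpos N) N
    have h2 : (P.prod P) {p | b < mx (path X p.1) 0 (1/4)}ᶜ ≤ ENNReal.ofReal (κ.toReal / 2) := by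
      have e : {p : Ω × Ω | b < mx (path X p.1) 0 (1/4)}ᶜ =
          {ω | mx (path X ω) 0 (1/4) ≤ b} ×ˢ univ := by
        ext p; simp
      rw [e, Measure.prod_prod, measure_univ, mul_one]
      exact hfast
    have h3 : κ ≤ (P.prod P) (G N) + ENNReal.ofReal (κ.toReal / 2) := by
      refine h1.trans ?_
      refine (measure_mono ?_).trans ((measure_union_le (G N)
        {p | b < mx (path X p.1) 0 (1/4)}ᶜ).trans (add_le_add le_rfl h2))
      intro p hp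
      by_cases hb' : b < mx (path X p.1) 0 (1/4)
      · left; exact ⟨hp, hb'⟩
      · right; exact hb'
    have h4 : κ = ENNReal.ofReal (κ.toReal / 2) + ENNReal.ofReal (κ.toReal / 2) := by
      rw [← ENNReal.ofReal_add (by positivity) (by positivity), add_halves,
        ENNReal.ofReal_toReal hκt]
    have h5 : ENNReal.ofReal (κ.toReal / 2) + ENNReal.ofReal (κ.toReal / 2) ≤
        (P.prod P) (G N) + ENNReal.ofReal (κ.toReal / 2) := by rw [← h4]; exact h3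
    exact (ENNReal.add_le_add_iff_right ENNReal.ofReal_ne_top).1 h5
  -- reverse Fatou
  set Cs : ℕ → Set (Ω × Ω) := fun M => ⋃ N ∈ Ici M, G N with hCs
  have hCm : ∀ M, MeasurableSet (Cs M) := fun M =>
    MeasurableSet.biUnion (to_countable _) fun N _ => hGm N
  have hanti : Antitone Cs := by
    intro M M' hMM p hp
    simp only [hCs, mem_iUnion, mem_Ici] at hp ⊢
    obtain ⟨N, h1, h2⟩ := hp
    exact ⟨N, hMM.trans h1, h2⟩
  have hlim := tendsto_measure_iInter_atTop (μ := P.prod P) (fun M => (hCm M).nullMeasurableSet)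
    hanti ⟨0, measure_ne_top _ _⟩
  have hge : ENNReal.ofReal (κ.toReal / 2) ≤ (P.prod P) (⋂ M, Cs M) := by
    refine ge_of_tendsto' hlim fun M => ?_
    refine (hGp M).trans (measure_mono ?_)
    intro p hp
    simp only [hCs, mem_iUnion, mem_Ici]
    exact ⟨M, le_rfl, hp⟩
  have hUA : ∀ᵐ p ∂(P.prod P), UA (path X p.1) ∧ UA (path X p.2) := by
    have h1 := UA_ae hX
    have e1 : ∀ᵐ p ∂(P.prod P), UA (path X p.1) :=
      Measure.quasiMeasurePreserving_fst.ae h1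
    have e2 : ∀ᵐ p ∂(P.prod P), UA (path X p.2) :=
      Measure.quasiMeasurePreserving_snd.ae h1
    filter_upwards [e1, e2] with p h2 h3 using ⟨h2, h3⟩
  intro hzero
  have hle : (P.prod P) (⋂ M, Cs M) ≤ (P.prod P) {p | ((path X p.1, path X p.2), b) ∈ AA} := by
    refine measure_mono_ae ?_
    filter_upwards [hUA] with p hp hmem
    have hmem' : ∀ M, ∃ N ≥ M, p ∈ G N := by
      intro M
      have := mem_iInter.1 hmem M
      simp only [hCs, mem_iUnion, mem_Ici] at this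
      obtain ⟨N, h1, h2⟩ := this
      exact ⟨N, h1, h2⟩
    have hc := hX.cont p.1
    have hc' := hX.cont p.2
    refine mem_AA hc hc' hb ?_ ?_
    · obtain ⟨N, _, h2⟩ := hmem' 0
      have h3 : b < mx (path X p.1) 0 (1/4) := h2.2
      obtain ⟨s, _, hs2, hs3⟩ := exists_mx hc (zero_le (a := (1/4 : ℝ≥0)))
      refine ⟨s, hs2, ?_⟩
      have := le_Qf hc hc' (le_refl s)
      rw [tsub_self, hX.path_zero, add_zero, ← hs3] at this
      linarith
    · intro δ hδ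
      -- choose a large scale index
      have htend : Tendsto (fun N : ℕ => (rr N)^2) atTop (𝓝 0) := by
        have h1 : Tendsto rr atTop (𝓝 0) := by
          rw [← NNReal.tendsto_coe, NNReal.coe_zero]
          have h2 : ∀ N : ℕ, ((rr N : ℝ≥0) : ℝ) = b / ((N:ℝ) + 4) := by
            intro N
            rw [eq_div_iff (by positivity), mul_comm]; exact hrb N
          simp_rw [h2]
          exact tendsto_const_nhds.div_atTop
            (tendsto_atTop_add_const_right _ _ tendsto_natCast_atTop_atTop)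
        have := h1.pow 2
        simpa using this
      obtain ⟨M, hM⟩ := eventually_atTop.1 (htend.eventually_le_const hδ)
      obtain ⟨N, hN, hNG⟩ := hmem' M
      obtain ⟨hNG1, _⟩ := hNG
      simp only [mem_iUnion] at hNG1
      obtain ⟨j, hj, hpE⟩ := hNG1
      obtain ⟨f, k1, k2, k3⟩ := local_picture (CBM.qp hX) hp.1 hp.2 (hrpos N)
        (Nat.lt_succ_iff.1 (Finset.mem_range.1 hj)) hpE
      rw [hrb] at k2 k3
      refine ⟨f, (rr N)^2, by have := hrpos N; positivity, hM N hN, fun ℓ hℓ => ?_, k2, k3⟩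
      have := k1 ℓ hℓ
      rwa [hrb] at this
  rw [hzero] at hle
  have := hge.trans hle
  rw [nonpos_iff_eq_zero, ENNReal.ofReal_eq_zero] at this
  linarith

end Pool.Agent.V11191.Comp
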