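import Pool.Agent.V11191.Comp.Iid

/-!
# The minimum of the walk and the surgery
-/

open Set MeasureTheory Filter Topology ProbabilityTheory
open scoped NNReal ENNReal
open Pool.Agent.TH970

namespace Pool.Agent.V11191.Comp

/-! ### deterministic part -/

/-- steps of the walk attached to two sequences of durations, with three cells removed -/
def wx (N j : ℕ) (u u' : ℕ → ℝ) (i : ℕ) : ℝ :=
  (if i < j then u i else u (i + 3)) - (if i < j then u' (N + 2 - i) else u' (N - 1 - i))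

/-- the configuration around the cell `j + 2` -/
structure Good (N j : ℕ) (v c2 : ℝ) (u u' : ℕ → ℝ) : Prop where
  jN : j ≤ N
  s1 : u j ≤ v
  s2 : u (j + 1) ≤ v
  b : c2 ≤ u (j + 2)
  s1' : u' (N - j) ≤ v
  s2' : u' (N - j + 1) ≤ v
  b' : c2 ≤ u' (N - j + 2)
  walk : ∀ m ≤ N, ∑ i ∈ Finset.range j, wx N j u u' i ≤ ∑ i ∈ Finset.range m, wx N j u u' i

/-- partial sums -/
def TT (u : ℕ → ℝ) (l : ℕ) : ℝ := ∑ i ∈ Finset.range l, u i

lemma TT_succ (u : ℕ → ℝ) (l : ℕ) : TT u (l + 1) = TT u l + u l := Finset.sum_range_succ _ _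

lemma TT_mono {u : ℕ → ℝ} (hu : ∀ i, 0 ≤ u i) : Monotone (TT u) :=
  monotone_nat_of_le_succ fun l => by rw [TT_succ]; linarith [hu l]

variable {N j : ℕ} {v c2 : ℝ} {u u' : ℕ → ℝ}

lemma Good.fwd (h : Good N j v c2 u u') {m : ℕ} (hm1 : j ≤ m) (hm2 : m ≤ N) :
    TT u (j + 2) + TT u' (N - j + 2) + (c2 - 2 * v) ≤ TT u (m + 3) + TT u' (N - m) := by
  have key : TT u (m + 3) + TT u' (N - m) - ∑ i ∈ Finset.range m, wx N j u u' i =
      TT u (j + 3) + TT u' (N - j) - ∑ i ∈ Finset.range j, wx N j u u' i := by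
    induction m, hm1 using Nat.le_induction with
    | base => rfl
    | succ m hm ih =>
      rw [← ih (by omega), Finset.sum_range_succ, TT_succ u (m + 3)]
      have e1 : N - m = (N - (m + 1)) + 1 := by omega
      rw [e1, TT_succ u']
      unfold wx
      rw [if_neg (by omega), if_neg (by omega)]
      have e2 : N - 1 - m = N - (m + 1) := by omega
      rw [e2]; ring
  have hw := h.walk m hm2
  have e3 : TT u' (N - j + 2) = TT u' (N - j) + u' (N - j) + u' (N - j + 1) := by
    rw [TT_succ, TT_succ]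
  have e4 : TT u (j + 3) = TT u (j + 2) + u (j + 2) := TT_succ _ _
  have := h.s1'
  have := h.s2'
  have := h.b
  linarith

lemma Good.bwd (h : Good N j v c2 u u') {m : ℕ} (hm : m ≤ j) :
    TT u (j + 2) + TT u' (N - j + 2) + (c2 - 2 * v) ≤ TT u m + TT u' (N + 3 - m) := by
  have hjN := h.jN
  have key : ∀ m ≤ j, TT u m + TT u' (N + 3 - m) - ∑ i ∈ Finset.range m, wx N j u u' i =
      TT u' (N + 3) := by
    intro m
    induction m with
    | zero => intro _; simp [TT]
    | succ m ih =>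
      intro hm
      rw [← ih (by omega), Finset.sum_range_succ, TT_succ u m]
      have e1 : N + 3 - m = (N + 3 - (m + 1)) + 1 := by omega
      rw [e1, TT_succ u']
      unfold wx
      rw [if_pos (by omega), if_pos (by omega)]
      have e2 : N + 2 - m = N + 3 - (m + 1) := by omega
      rw [e2]; ring
  have k1 := key m hm
  have k2 := key j le_rfl
  have hw := h.walk m (hm.trans hjN)
  have e3 : TT u (j + 2) = TT u j + u j + u (j + 1) := by rw [TT_succ, TT_succ]
  have e4 : N + 3 - j = N - j + 2 + 1 := by omega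
  rw [e4, TT_succ u' (N - j + 2)] at k2
  have := h.s1
  have := h.s2
  have := h.b'
  linarith

/-- uniqueness of the good position -/
lemma Good.unique (_hu : ∀ i, 0 ≤ u i) (hu' : ∀ i, 0 ≤ u' i) (hv : 0 < v) (hc : 2 * v < c2)
    {j' : ℕ} (h : Good N j v c2 u u') (h' : Good N j' v c2 u u') : j = j' := by
  have key : ∀ {j j' : ℕ}, Good N j v c2 u u' → Good N j' v c2 u u' → j < j' →
      TT u (j + 2) + TT u' (N - j + 2) < TT u (j' + 2) + TT u' (N - j' + 2) := by
    intro j j' h h' hlt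
    have h1 := h'.jN
    have h2 := h.fwd (m := j' - 1) (by omega) (by omega)
    have e1 : j' - 1 + 3 = j' + 2 := by omega
    have e2 : N - (j' - 1) = N - j' + 1 := by omega
    rw [e1, e2] at h2
    have h3 := TT_mono hu' (show N - j' + 1 ≤ N - j' + 2 by omega)
    linarith
  have key2 : ∀ {j j' : ℕ}, Good N j v c2 u u' → Good N j' v c2 u u' → j' < j →
      TT u (j + 2) + TT u' (N - j + 2) < TT u (j' + 2) + TT u' (N - j' + 2) := by
    intro j j' h h' hlt
    have h1 := h.jN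
    rcases Nat.lt_or_ge (j' + 1) j with h2 | h2
    · have h3 := h.bwd (m := j' + 2) (by omega)
      have e1 : N + 3 - (j' + 2) = N - j' + 1 := by omega
      rw [e1] at h3
      have h4 := TT_mono hu' (show N - j' + 1 ≤ N - j' + 2 by omega)
      linarith
    · have e : j' + 1 = j := by omega
      subst e
      have e1 : N - j' = N - (j' + 1) + 1 := by omega
      rw [e1, TT_succ u (j' + 2), show N - (j' + 1) + 1 + 2 = N - (j' + 1) + 2 + 1 by omega,
        TT_succ u' (N - (j' + 1) + 2)]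
      have h5 := h.s2
      have h6 := h.b'
      have e7 : j' + 1 + 1 = j' + 2 := rfl
      rw [e7] at h5
      have e8 : TT u (j' + 1 + 2) = TT u (j' + 2) + u (j' + 2) := TT_succ _ _
      linarith
  rcases lt_trichotomy j j' with h1 | h1 | h1
  · have := key h h' h1
    have := key2 h' h h1
    linarith
  · exact h1
  · have := key h' h h1
    have := key2 h h' h1
    linarith

/-! ### probability of the walk part -/

/-- abbreviation for the space of one piece -/
abbrev Ep := ℝ≥0 × Prop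

/-- steps -/
noncomputable def xw {N : ℕ} (y : Bool × Fin N → Ep) (i : ℕ) : ℝ :=
  if h : i < N then ((y (false, ⟨i, h⟩)).1 : ℝ) - (y (true, ⟨i, h⟩)).1 else 0

/-- the walk is minimal at `j` -/
def MM (N j : ℕ) : Set (Bool × Fin N → Ep) :=
  {y | ∀ m ≤ N, ∑ i ∈ Finset.range j, xw y i ≤ ∑ i ∈ Finset.range m, xw y i}

lemma meas_xw (N i : ℕ) : Measurable (fun y : Bool × Fin N → Ep => xw y i) := by
  unfold xw
  by_cases h : i < N
  · simp only [h, dif_pos]
    have h1 : ∀ x : Bool × Fin N, Measurable (fun y : Bool × Fin N → Ep => ((y x).1 : ℝ)) :=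
      fun x => measurable_coe_nnreal_real.comp (measurable_fst.comp (measurable_pi_apply x))
    exact (h1 _).sub (h1 _)
  · simp only [h, dif_neg, not_false_eq_true]
    exact measurable_const

lemma meas_MM (N j : ℕ) : MeasurableSet (MM N j) := by
  have e : MM N j = ⋂ m ∈ Finset.range (N + 1), {y : Bool × Fin N → Ep |
      ∑ i ∈ Finset.range j, xw y i ≤ ∑ i ∈ Finset.range m, xw y i} := by
    ext y
    simp only [MM, mem_ofPred_eq, Finset.mem_range, mem_iInter]
    exact ⟨fun h m hm => h m (by omega), fun h m hm => h m (by omega)⟩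
  rw [e]
  refine Finset.measurableSet_biInter _ fun m _ => ?_
  exact measurableSet_le (Finset.measurable_sum _ fun i _ => meas_xw N i)
    (Finset.measurable_sum _ fun i _ => meas_xw N i)

lemma sum_MM (N : ℕ) (ρ : Measure (Bool × Fin N → Ep)) [IsProbabilityMeasure ρ] :
    1 ≤ ∑ j ∈ Finset.range (N + 1), ρ (MM N j) := by
  have h1 : (univ : Set (Bool × Fin N → Ep)) ⊆ ⋃ j ∈ Finset.range (N + 1), MM N j := by
    intro y _
    obtain ⟨j, hj1, hj2⟩ := Finset.exists_min_image (Finset.range (N + 1))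
      (fun m => ∑ i ∈ Finset.range m, xw y i) ⟨0, by simp⟩
    simp only [mem_iUnion]
    exact ⟨j, hj1, fun m hm => hj2 m (by simp; omega)⟩
  calc (1:ℝ≥0∞) = ρ univ := measure_univ.symm
    _ ≤ ρ (⋃ j ∈ Finset.range (N + 1), MM N j) := measure_mono h1
    _ ≤ _ := measure_biUnion_finset_le _ _

/-- the injection -/
def emb (N j : ℕ) : (Bool × Fin N) ⊕ (Bool × Fin 3) → Bool × ℕ
  | Sum.inl (false, i) => (false, if (i : ℕ) < j then i else i + 3)
  | Sum.inl (true, i) => (true, if (i : ℕ) < j then N + 2 - i else N - 1 - i)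
  | Sum.inr (false, r) => (false, j + r)
  | Sum.inr (true, r) => (true, N - j + r)

lemma emb_inj {N j : ℕ} (hj : j ≤ N) : Function.Injective (emb N j) := by
  rintro (⟨b, i, hi⟩ | ⟨b, r, hr⟩) (⟨b', i', hi'⟩ | ⟨b', r', hr'⟩) h
  · cases b <;> cases b' <;> simp only [emb, Prod.mk.injEq, reduceCtorEq, false_and, true_and] at h
    · split_ifs at h <;> simp only [Sum.inl.injEq, Prod.mk.injEq, true_and, Fin.mk.injEq] <;> omega
    · split_ifs at h <;> simp only [Sum.inl.injEq, Prod.mk.injEq, true_and, Fin.mk.injEq] <;> omega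
  · exfalso
    cases b <;> cases b' <;> simp only [emb, Prod.mk.injEq, reduceCtorEq, false_and, true_and] at h
    · split_ifs at h <;> omega
    · split_ifs at h <;> omega
  · exfalso
    cases b <;> cases b' <;> simp only [emb, Prod.mk.injEq, reduceCtorEq, false_and, true_and] at h
    · split_ifs at h <;> omega
    · split_ifs at h <;> omega
  · cases b <;> cases b' <;> simp only [emb, Prod.mk.injEq, reduceCtorEq, false_and, true_and] at h
    · simp only [Sum.inr.injEq, Prod.mk.injEq, true_and, Fin.mk.injEq]; omega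
    · simp only [Sum.inr.injEq, Prod.mk.injEq, true_and, Fin.mk.injEq]; omega

/-- the constraints on the three removed cells -/
def EC (v c2 : ℝ≥0) (x : Bool × Fin 3) : Set Ep :=
  if x.2 = 2 then {q | q.2 ∧ c2 ≤ q.1} else {q | q.1 ≤ v}

lemma meas_EC (v c2 : ℝ≥0) (x : Bool × Fin 3) : MeasurableSet (EC v c2 x) := by
  unfold EC
  split_ifs
  · have h1 : MeasurableSet {q : Ep | q.2} := measurableSet_setOfPred.2 measurable_snd
    have h2 : MeasurableSet {q : Ep | c2 ≤ q.1} := measurableSet_le measurable_const measurable_fst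
    exact h1.inter h2
  · exact measurableSet_le measurable_fst measurable_const

lemma pi_split {N : ℕ} (ν : Measure Ep) [IsProbabilityMeasure ν] {M : Set (Bool × Fin N → Ep)}
    (hM : MeasurableSet M) {A : Bool × Fin 3 → Set Ep} (hA : ∀ x, MeasurableSet (A x)) :
    (Measure.pi fun _ : (Bool × Fin N) ⊕ (Bool × Fin 3) => ν)
      {y | (fun i => y (Sum.inl i)) ∈ M ∧ ∀ x, y (Sum.inr x) ∈ A x} =
    (Measure.pi fun _ => ν) M * ∏ x, ν (A x) := by
  have hmp := measurePreserving_sumPiEquivProdPi_symm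
    (fun _ : (Bool × Fin N) ⊕ (Bool × Fin 3) => ν)
  have hset : MeasurableSet {y : (Bool × Fin N) ⊕ (Bool × Fin 3) → Ep |
      (fun i => y (Sum.inl i)) ∈ M ∧ ∀ x, y (Sum.inr x) ∈ A x} := by
    have h1 : Measurable (fun (y : (Bool × Fin N) ⊕ (Bool × Fin 3) → Ep) (i : Bool × Fin N) =>
        y (Sum.inl i)) := measurable_pi_lambda _ fun i => measurable_pi_apply _
    refine (h1 hM).inter ?_
    have e : {y : (Bool × Fin N) ⊕ (Bool × Fin 3) → Ep | ∀ x, y (Sum.inr x) ∈ A x} =
        ⋂ x, {y | y (Sum.inr x) ∈ A x} := by ext y; simp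
    show MeasurableSet {y : (Bool × Fin N) ⊕ (Bool × Fin 3) → Ep | ∀ x, y (Sum.inr x) ∈ A x}
    rw [e]
    exact MeasurableSet.iInter fun x => (measurable_pi_apply _) (hA x)
  rw [← hmp.measure_preimage hset.nullMeasurableSet]
  have e : (MeasurableEquiv.sumPiEquivProdPi (fun _ : (Bool × Fin N) ⊕ (Bool × Fin 3) => Ep)).symm ⁻¹'
      {y | (fun i => y (Sum.inl i)) ∈ M ∧ ∀ x, y (Sum.inr x) ∈ A x} =
      M ×ˢ (Set.pi univ A) := by
    ext ⟨y1, y2⟩
    simp only [mem_preimage, mem_ofPred_eq, mem_prod, Set.mem_pi, mem_univ, true_imp_iff]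
    rfl
  rw [e, Measure.prod_prod, Measure.pi_pi]

variable {Ω : Type*} [mΩ : MeasurableSpace Ω] {P : Measure Ω}

/-- the good event -/
def EV (a : ℝ) (c1 c2 v : ℝ≥0) (X : ℝ≥0 → Ω → ℝ) (N j : ℕ) : Set (Ω × Ω) :=
  {p | (fun i => QF a c1 c2 X (emb N j (Sum.inl i)) p) ∈ MM N j ∧
    ∀ x, QF a c1 c2 X (emb N j (Sum.inr x)) p ∈ EC v c2 x}

lemma meas_EV {a : ℝ} {c1 c2 v : ℝ≥0} {X : ℝ≥0 → Ω → ℝ} (h : QP X) (N j : ℕ) :
    MeasurableSet (EV a c1 c2 v X N j) := by
  have h1 : Measurable (fun (p : Ω × Ω) (i : Bool × Fin N) =>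
      QF a c1 c2 X (emb N j (Sum.inl i)) p) := measurable_pi_lambda _ fun i => meas_QF h _
  refine (h1 (meas_MM N j)).inter ?_
  have e : {p : Ω × Ω | ∀ x, QF a c1 c2 X (emb N j (Sum.inr x)) p ∈ EC v c2 x} =
      ⋂ x, {p | QF a c1 c2 X (emb N j (Sum.inr x)) p ∈ EC v c2 x} := by ext y; simp
  show MeasurableSet {p : Ω × Ω | ∀ x, QF a c1 c2 X (emb N j (Sum.inr x)) p ∈ EC v c2 x}
  rw [e]
  exact MeasurableSet.iInter fun x => (meas_QF h _) (meas_EC v c2 x)

lemma prob_EV [IsProbabilityMeasure P] {a : ℝ} (ha : 0 < a) {c1 c2 : ℝ≥0} (hc : c1 ≤ c2)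
    {X : ℝ≥0 → Ω → ℝ} (hX : CBM P X) (v : ℝ≥0) {N j : ℕ} (hj : j ≤ N) :
    (P.prod P) (EV a c1 c2 v X N j) =
      (Measure.pi fun _ : Bool × Fin N => nuq P a c1 c2 X) (MM N j) *
      ∏ x, nuq P a c1 c2 X (EC v c2 x) := by
  have hpr := prob_nuq (P := P) (a := a) (c1 := c1) (c2 := c2) (CBM.qp hX)
  rw [← pi_split (nuq P a c1 c2 X) (meas_MM N j) (meas_EC v c2), ← QF_pi ha hc hX (emb_inj hj),
    Measure.map_apply]
  · rfl
  · exact measurable_pi_lambda _ fun i => meas_QF (CBM.qp hX) _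
  · have h1 : Measurable (fun (y : (Bool × Fin N) ⊕ (Bool × Fin 3) → Ep) (i : Bool × Fin N) =>
        y (Sum.inl i)) := measurable_pi_lambda _ fun i => measurable_pi_apply _
    refine (h1 (meas_MM N j)).inter ?_
    have e : {y : (Bool × Fin N) ⊕ (Bool × Fin 3) → Ep | ∀ x, y (Sum.inr x) ∈ EC v c2 x} =
        ⋂ x, {y | y (Sum.inr x) ∈ EC v c2 x} := by ext y; simp
    show MeasurableSet {y : (Bool × Fin N) ⊕ (Bool × Fin 3) → Ep | ∀ x, y (Sum.inr x) ∈ EC v c2 x}
    rw [e]
    exact MeasurableSet.iInter fun x => (measurable_pi_apply _) (meas_EC v c2 x)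

omit mΩ in
/-- a good event is a good configuration of the durations -/
lemma EV_good {a : ℝ} {c1 c2 v : ℝ≥0} {X : ℝ≥0 → Ω → ℝ} {N j : ℕ} (hj : j ≤ N) {p : Ω × Ω}
    (hp : p ∈ EV a c1 c2 v X N j) :
    Good N j v c2 (fun i => ((QF a c1 c2 X (false, i) p).1 : ℝ))
      (fun i => ((QF a c1 c2 X (true, i) p).1 : ℝ)) ∧
    (QF a c1 c2 X (false, j + 2) p).2 ∧ (QF a c1 c2 X (true, N - j + 2) p).2 := by
  obtain ⟨h1, h2⟩ := hp
  have g1 := h2 (false, 0)
  have g2 := h2 (false, 1)
  have g3 := h2 (false, 2)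
  have g4 := h2 (true, 0)
  have g5 := h2 (true, 1)
  have g6 := h2 (true, 2)
  simp only [emb, EC, Fin.isValue, Fin.val_zero, add_zero, Fin.val_one, Fin.val_two,
    if_true] at g1 g2 g3 g4 g5 g6
  rw [if_neg (by decide)] at g1 g2 g4 g5
  refine ⟨⟨hj, ?_, ?_, ?_, ?_, ?_, ?_, ?_⟩, g3.1, g6.1⟩
  · exact_mod_cast g1
  · exact_mod_cast g2
  · exact_mod_cast g3.2
  · exact_mod_cast g4
  · exact_mod_cast g5
  · exact_mod_cast g6.2
  · intro m hm
    have h3 := h1 m hm
    have e : ∀ l ≤ N, ∑ i ∈ Finset.range l, xw (fun i => QF a c1 c2 X (emb N j (Sum.inl i)) p) i =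
        ∑ i ∈ Finset.range l, wx N j (fun i => ((QF a c1 c2 X (false, i) p).1 : ℝ))
          (fun i => ((QF a c1 c2 X (true, i) p).1 : ℝ)) i := by
      intro l hl
      refine Finset.sum_congr rfl fun i hi => ?_
      have hi' := Finset.mem_range.1 hi
      unfold xw wx
      rw [dif_pos (by omega)]
      simp only [emb]
      split_ifs <;> rfl
    rw [e j hj, e m hm] at h3
    exact h3

/-- **Lower bound for the probability of a good configuration.** -/
theorem prob_union [IsProbabilityMeasure P] {a : ℝ} (ha : 0 < a) {c1 c2 : ℝ≥0} (hc : c1 ≤ c2)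
    {X : ℝ≥0 → Ω → ℝ} (hX : CBM P X) {v : ℝ≥0} (hv : 0 < v) (hvc : 2 * v < c2) (N : ℕ) :
    ∏ x, nuq P a c1 c2 X (EC v c2 x) ≤
      (P.prod P) (⋃ j ∈ Finset.range (N + 1), EV a c1 c2 v X N j) := by
  have hpr := prob_nuq (P := P) (a := a) (c1 := c1) (c2 := c2) (CBM.qp hX)
  rw [measure_biUnion_finset]
  · calc ∏ x, nuq P a c1 c2 X (EC v c2 x) = 1 * ∏ x, nuq P a c1 c2 X (EC v c2 x) := (one_mul _).symm
      _ ≤ (∑ j ∈ Finset.range (N + 1),
          (Measure.pi fun _ : Bool × Fin N => nuq P a c1 c2 X) (MM N j)) *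
          ∏ x, nuq P a c1 c2 X (EC v c2 x) := mul_le_mul_left (sum_MM N _) _
      _ = ∑ j ∈ Finset.range (N + 1), (P.prod P) (EV a c1 c2 v X N j) := by
          rw [Finset.sum_mul]
          refine Finset.sum_congr rfl fun j hj => ?_
          rw [prob_EV ha hc hX v (Nat.lt_succ_iff.1 (Finset.mem_range.1 hj))]
  · intro j hj j' hj' hne
    rw [Function.onFun, Set.disjoint_left]
    intro p h1 h2
    have hj1 : j ≤ N := Nat.lt_succ_iff.1 (Finset.mem_range.1 (Finset.mem_coe.1 hj))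
    have hj2 : j' ≤ N := Nat.lt_succ_iff.1 (Finset.mem_range.1 (Finset.mem_coe.1 hj'))
    apply hne
    refine Good.unique (fun i => NNReal.coe_nonneg _) (fun i => NNReal.coe_nonneg _)
      (v := v) (c2 := c2) (by exact_mod_cast hv) (by exact_mod_cast hvc)
      (EV_good hj1 h1).1 (EV_good hj2 h2).1
  · exact fun j _ => meas_EV (CBM.qp hX) N j

end Pool.Agent.V11191.Comp
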