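import Pool.Agent.V11191.Comp.Trans
import Pool.Agent.V11330.BMGeneric
import Pool.Agent.V11330.BMTools

/-!
# The span set has infinitely many components with positive probability
-/

open Set MeasureTheory Filter Topology ProbabilityTheory
open scoped NNReal ENNReal
open Pool.Agent.TH970

namespace Pool.Agent.V11191.Comp

open Pool.Agent.V11330.Span (SpR)

/-- a set whose maximum is approached by gaps, regular, is not a finite union of intervals -/
lemma no_finite {S : Set ℝ} {M : ℝ} (hmax : ∀ u ∈ S, u ≤ M) (hMS : M ∈ S)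
    (hgap : ∀ δ > 0, ∃ g, M - δ < g ∧ g < M ∧ g ∉ S) (hreg : S ⊆ closure (interior S))
    {F : Set (ℝ × ℝ)} (hF : F.Finite) : S ≠ ⋃ p ∈ F, Icc p.1 p.2 := by
  intro hS
  set F' : Set (ℝ × ℝ) := {p ∈ F | M ∉ Icc p.1 p.2} with hF'
  have hF'f : F'.Finite := hF.subset fun p hp => hp.1
  have hcl : IsClosed (⋃ p ∈ F', Icc p.1 p.2) := hF'f.isClosed_biUnion fun p _ => isClosed_Icc
  have hMU : M ∉ ⋃ p ∈ F', Icc p.1 p.2 := by
    simp only [mem_iUnion, not_exists]
    intro p hp h
    exact hp.2 h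
  obtain ⟨δ, hδ, hball⟩ := Metric.isOpen_iff.1 hcl.isOpen_compl M hMU
  obtain ⟨u, hu1, hu2⟩ := Metric.mem_closure_iff.1 (hreg hMS) δ hδ
  have huS : u ∈ S := interior_subset hu1
  have huM : u < M := by
    rcases (hmax u huS).lt_or_eq with h | h
    · exact h
    · exfalso
      subst h
      obtain ⟨ε, hε, hb⟩ := Metric.isOpen_iff.1 isOpen_interior u hu1
      have h1 : u + ε/2 ∈ S := interior_subset (hb (by
        rw [Metric.mem_ball, Real.dist_eq, add_sub_cancel_left, abs_of_pos (by positivity)]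
        linarith))
      have := hmax _ h1
      linarith
  have hu3 : u ∈ ⋃ p ∈ F, Icc p.1 p.2 := hS ▸ huS
  simp only [mem_iUnion] at hu3
  obtain ⟨p, hp, hup⟩ := hu3
  have hMp : M ∈ Icc p.1 p.2 := by
    by_contra hcon
    have h1 : u ∈ (⋃ p ∈ F', Icc p.1 p.2)ᶜ := hball (by rw [Metric.mem_ball, dist_comm]; exact hu2)
    apply h1
    simp only [mem_iUnion]
    exact ⟨p, ⟨hp, hcon⟩, hup⟩
  obtain ⟨g, hg1, hg2, hg3⟩ := hgap (M - u) (by linarith)
  apply hg3
  rw [hS]
  simp only [mem_iUnion]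
  exact ⟨p, hp, by linarith [hup.1], by linarith [hMp.2]⟩

/-- infinitely many components -/
lemma comp_infinite {S : Set ℝ} (hS : IsCompact S)
    (h : ∀ F : Set (ℝ × ℝ), F.Finite → S ≠ ⋃ p ∈ F, Icc p.1 p.2) :
    {C : Set ℝ | ∃ x ∈ S, C = connectedComponentIn S x}.Infinite := by
  intro hfin
  refine h ((fun C : Set ℝ => (sInf C, sSup C)) '' {C : Set ℝ | ∃ x ∈ S, C = connectedComponentIn S x})
    (hfin.image _) ?_
  have hicc : ∀ x ∈ S, connectedComponentIn S x =
      Icc (sInf (connectedComponentIn S x)) (sSup (connectedComponentIn S x)) := by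
    intro x hx
    have hpre : IsPreconnected (connectedComponentIn S x) := isPreconnected_connectedComponentIn
    have hxC : x ∈ connectedComponentIn S x := mem_connectedComponentIn hx
    have hsub := connectedComponentIn_subset S x
    have hcl : IsClosed (connectedComponentIn S x) := by
      have h1 : closure (connectedComponentIn S x) ⊆ connectedComponentIn S x :=
        hpre.closure.subset_connectedComponentIn (subset_closure hxC)
          (closure_minimal hsub hS.isClosed)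
      exact isClosed_of_closure_subset h1
    exact eq_Icc_of_connected_compact ⟨⟨x, hxC⟩, hpre⟩ (hS.of_isClosed_subset hcl hsub)
  ext y
  simp only [mem_iUnion, mem_image, mem_ofPred_eq]
  constructor
  · intro hy
    refine ⟨_, ⟨_, ⟨y, hy, rfl⟩, rfl⟩, ?_⟩
    have h1 := mem_connectedComponentIn hy
    rw [hicc y hy] at h1
    exact h1
  · rintro ⟨p, ⟨C, ⟨x, hx, rfl⟩, rfl⟩, hy⟩
    have h1 : y ∈ connectedComponentIn S x := by rw [hicc x hx]; exact hy
    exact connectedComponentIn_subset S x h1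

variable {Ω : Type*} [mΩ : MeasurableSpace Ω] {P : Measure Ω}

omit mΩ in
/-- the deterministic conclusion -/
lemma of_AA {X : ℝ≥0 → Ω → ℝ} {ω : Ω} (hc : Continuous (path X ω)) (h0 : X 0 ω = 0)
    (hA : ((path X ω, path (xr X) ω), X 1 ω) ∈ AA) :
    ∃ M : ℝ, (∀ u ∈ SpR (fun t : ℝ => X t.toNNReal ω), u ≤ M) ∧
      M ∈ SpR (fun t : ℝ => X t.toNNReal ω) ∧
      ∀ δ > 0, ∃ g, M - δ < g ∧ g < M ∧ g ∉ SpR (fun t : ℝ => X t.toNNReal ω) := by
  set w := path X ω with hw
  set w' := path (xr X) ω with hw'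
  set b := X 1 ω with hb
  have hc' : Continuous w' := by
    have : w' = fun t => w 1 - w (1 - min t (1/3)) := rfl
    rw [this]
    have h1 : Continuous (fun t : ℝ≥0 => 1 - min t (1/3)) :=
      continuous_const.sub (continuous_id.min continuous_const)
    exact continuous_const.sub (hc.comp h1)
  have hQc := Qf_continuous hc hc'
  obtain ⟨hb0, ⟨m0, hm0, hm0'⟩, hacc⟩ := hA
  simp only at hb0 hm0' hacc
  -- first level time
  set Z : Set ℝ≥0 := {ℓ | b ≤ Qf w w' ℓ} with hZ
  have hZc : IsClosed Z := isClosed_le continuous_const hQc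
  obtain ⟨ℓ0, hℓ0, hℓ0'⟩ := (le_MQ_iff hc hc').1 hm0'
  have hZn : Z.Nonempty := ⟨ℓ0, hℓ0'⟩
  set ls := sInf Z with hls
  have hlsZ : b ≤ Qf w w' ls := hZc.csInf_mem hZn (OrderBot.bddBelow Z)
  have hls1 : ls < 1/3 := lt_of_le_of_lt ((csInf_le (OrderBot.bddBelow Z) (show ℓ0 ∈ Z from hℓ0')).trans hℓ0) hm0
  have hbefore : ∀ ℓ < ls, Qf w w' ℓ < b := by
    intro ℓ hℓ
    by_contra hcon
    have : ls ≤ ℓ := csInf_le (OrderBot.bddBelow Z) (show ℓ ∈ Z from not_lt.1 hcon)
    exact absurd hℓ (not_lt.2 this)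
  have h13 : (1/3 : ℝ≥0) ≤ 1 := by rw [← NNReal.coe_le_coe]; push_cast; norm_num
  have h13' : ((1/3 : ℝ≥0) : ℝ) = 1/3 := by push_cast; rfl
  -- translation
  have hnot : ∀ ℓ : ℝ≥0, ℓ ≤ 1/3 → Qf w w' ℓ < b →
      (1:ℝ) - ℓ ∉ SpR (fun t : ℝ => X t.toNNReal ω) := by
    rintro ℓ hℓ hQ ⟨s, t, h1, h2, h3, h4, h5⟩
    have hsℓ : s.toNNReal ≤ ℓ := by
      rw [← NNReal.coe_le_coe, Real.coe_toNNReal _ h1]; linarith
    have h6 := le_Qf hc hc' hsℓ
    have h7 : ℓ - s.toNNReal = (1 - t).toNNReal := by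
      apply NNReal.coe_injective
      rw [NNReal.coe_sub hsℓ, Real.coe_toNNReal _ h1, Real.coe_toNNReal _ (by linarith)]
      linarith
    have h8 : w' (ℓ - s.toNNReal) = b - w t.toNNReal := by
      have e1 : min (ℓ - s.toNNReal) (1/3) = ℓ - s.toNNReal := min_eq_left (tsub_le_self.trans hℓ)
      show X 1 ω - X (1 - min (ℓ - s.toNNReal) (1/3)) ω = _
      rw [e1, h7]
      have e2 : (1:ℝ≥0) - (1 - t).toNNReal = t.toNNReal := by
        have ht0 : 0 ≤ t := h1.trans h2
        have e3 : (1 - t).toNNReal ≤ 1 := by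
          rw [← NNReal.coe_le_coe, Real.coe_toNNReal _ (by linarith), NNReal.coe_one]; linarith
        apply NNReal.coe_injective
        rw [NNReal.coe_sub e3, Real.coe_toNNReal _ (by linarith), Real.coe_toNNReal _ ht0,
          NNReal.coe_one]
        ring
      rw [e2]; rfl
    rw [h8] at h6
    have h9 : w s.toNNReal = w t.toNNReal := h4
    rw [h9] at h6
    linarith
  -- positivity of the first time and equality there
  have hlspos : 0 < ls := by
    by_contra hcon
    have e1 : ls = 0 := nonpos_iff_eq_zero.1 (not_lt.1 hcon)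
    rw [e1] at hlsZ
    obtain ⟨s, hs, hs2⟩ := exists_Qf hc hc' 0
    have hs0 : s = 0 := nonpos_iff_eq_zero.1 hs
    rw [hs2, hs0] at hlsZ
    have e2 : w 0 = 0 := h0
    have e3 : w' (0 - 0) = 0 := by
      show X 1 ω - X (1 - min (0 - 0) (1/3)) ω = 0
      rw [tsub_self, min_eq_left zero_le, tsub_zero, sub_self]
    rw [e2, e3] at hlsZ
    linarith
  have hle : Qf w w' ls ≤ b := by
    by_contra hcon
    push Not at hcon
    have h2 : {u | b < Qf w w' u} ∈ 𝓝 ls := (isOpen_lt continuous_const hQc).mem_nhds hcon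
    obtain ⟨ε, hε, hball⟩ := Metric.mem_nhds_iff.mp h2
    set v : ℝ≥0 := ls - (ε/2).toNNReal with hv
    have hv1 : v < ls := tsub_lt_self hlspos (by rw [Real.toNNReal_pos]; positivity)
    have h3 := hbefore v hv1
    have h4 : b < Qf w w' v := by
      apply hball
      rw [Metric.mem_ball, NNReal.dist_eq, abs_sub_comm, abs_of_nonneg (by
        have : (v:ℝ) ≤ ls := hv1.le
        linarith)]
      have h5 : ((ls : ℝ≥0) : ℝ) ≤ v + (ε/2).toNNReal := by
        rw [← NNReal.coe_add, NNReal.coe_le_coe]; exact le_tsub_add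
      rw [Real.coe_toNNReal _ (by positivity)] at h5
      linarith
    linarith
  refine ⟨1 - ls, ?_, ?_, ?_⟩
  · intro u hu
    by_contra hcon
    push Not at hcon
    have hu1 : u ≤ 1 := by
      obtain ⟨s, t, h1, h2, h3, h4, h5⟩ := hu
      linarith
    have h1 : (1 - u).toNNReal < ls := by
      rw [← NNReal.coe_lt_coe, Real.coe_toNNReal _ (by linarith)]; linarith
    have h2 := hnot (1 - u).toNNReal (h1.trans hls1).le (hbefore _ h1)
    rw [Real.coe_toNNReal _ (by linarith)] at h2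
    apply h2
    have : (1:ℝ) - (1 - u) = u := by ring
    rw [this]; exact hu
  · obtain ⟨s, hs, hs2⟩ := exists_Qf hc hc' ls
    have heq : w s + w' (ls - s) = b := by rw [← hs2]; exact le_antisymm hle hlsZ
    have hs' : (s:ℝ) ≤ ls := hs
    have hls' : (ls:ℝ) < 1/3 := by rw [← h13']; exact hls1
    have hs0 := NNReal.coe_nonneg s
    refine ⟨s, 1 - (ls - s), hs0, by linarith, by linarith, ?_, by ring⟩
    show w (s:ℝ).toNNReal = w (1 - ((ls:ℝ) - s)).toNNReal
    rw [Real.toNNReal_coe]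
    have e1 : w' (ls - s) = b - w (1 - (ls - s)) := by
      show X 1 ω - X (1 - min (ls - s) (1/3)) ω = _
      rw [min_eq_left (tsub_le_self.trans hls1.le)]
      rfl
    have e2 : (1 - ((ls:ℝ) - s)).toNNReal = 1 - (ls - s) := by
      have e3 : ls - s ≤ 1 := tsub_le_self.trans (hls1.le.trans h13)
      rw [← NNReal.coe_sub hs, ← NNReal.coe_one, ← NNReal.coe_sub e3, Real.toNNReal_coe]
    rw [e2]
    linarith
  · intro δ hδ
    have h1 : ls < min (ls + (δ/2).toNNReal) (1/3) := by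
      refine lt_min (lt_add_of_pos_right _ ?_) hls1
      rw [Real.toNNReal_pos]; positivity
    obtain ⟨m, h2, h3⟩ := exists_dq h1
    obtain ⟨m', h4, h5⟩ := exists_dq h3
    obtain ⟨k, k', g1, g2, g3, g4⟩ := hacc m m' h4 (h5.le.trans (min_le_right _ _))
      ((le_MQ_iff hc hc').2 ⟨ls, h2.le, hlsZ⟩)
    obtain ⟨ℓ, l1, l2⟩ := (le_MQ_iff hc hc').1 g3
    have hlk : ls < dq k' :=
      lt_of_le_of_lt ((csInf_le (OrderBot.bddBelow Z) (show ℓ ∈ Z from l2)).trans l1) g1
    have hk13 : dq k' ≤ 1/3 := g2.trans (h5.le.trans (min_le_right _ _))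
    have hkδ : dq k' ≤ ls + (δ/2).toNNReal := g2.trans (h5.le.trans (min_le_left _ _))
    have hkδ' : (dq k' : ℝ) ≤ ls + δ/2 := by
      have : (dq k' : ℝ) ≤ ((ls + (δ/2).toNNReal : ℝ≥0) : ℝ) := hkδ
      rw [NNReal.coe_add, Real.coe_toNNReal _ (by positivity)] at this
      exact this
    have hlk' : (ls : ℝ) < dq k' := hlk
    exact ⟨1 - dq k', by linarith, by linarith, hnot _ hk13 g4⟩

/-- **Main theorem.** -/
theorem main_inf {B : ℝ≥0 → Ω → ℝ} (hB : IsBrownianReal B P) :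
    ∃ A : Set Ω, MeasurableSet A ∧ 0 < P A ∧ ∀ ω ∈ A,
      (∀ F : Set (ℝ × ℝ), F.Finite → SpR (fun t : ℝ => B t.toNNReal ω) ≠ ⋃ p ∈ F, Icc p.1 p.2) ∧
      {C : Set ℝ | ∃ x ∈ SpR (fun t : ℝ => B t.toNNReal ω),
        C = connectedComponentIn (SpR (fun t : ℝ => B t.toNNReal ω)) x}.Infinite := by
  have hP : IsProbabilityMeasure P := hB.isGaussianProcess.isProbabilityMeasure
  obtain ⟨X, hX, hXB⟩ := V11330.BMTools.exists_CBM hB
  have hgen := V11330.Span.generic_ae hB
  have hae : ∀ᵐ ω ∂P, (∀ t, X t ω = B t ω) ∧ V11330.Span.Generic (fun t : ℝ => B t.toNNReal ω) := by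
    filter_upwards [hXB, hgen] with ω h1 h2 using ⟨h1, h2⟩
  rw [ae_iff] at hae
  obtain ⟨T, hT, hTm, hT0⟩ := exists_measurable_superset_of_null hae
  have hxm : ∀ t, Measurable (xr X t) := fun t => (hX.meas _).sub (hX.meas _)
  have hmeas : MeasurableSet {ω | ((path X ω, path (xr X) ω), X 1 ω) ∈ AA} := by
    have h1 : Measurable (fun ω => ((path X ω, path (xr X) ω), X 1 ω)) :=
      ((measurable_path hX.meas).prodMk (measurable_path hxm)).prodMk (hX.meas 1)
    exact h1 meas_AA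
  refine ⟨{ω | ((path X ω, path (xr X) ω), X 1 ω) ∈ AA} \ T, hmeas.diff hTm, ?_, ?_⟩
  · rw [measure_sdiff_null hT0, pos_iff_ne_zero]
    exact pos_path hX
  · rintro ω ⟨h1, h2⟩
    have h3 : (∀ t, X t ω = B t ω) ∧ V11330.Span.Generic (fun t : ℝ => B t.toNNReal ω) := by
      by_contra hcon
      exact h2 (hT hcon)
    obtain ⟨h4, h5⟩ := h3
    have e : (fun t : ℝ => X t.toNNReal ω) = fun t : ℝ => B t.toNNReal ω := by
      funext t; exact h4 _
    obtain ⟨M, m1, m2, m3⟩ := of_AA (hX.cont ω) (hX.zero ω) h1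
    rw [e] at m1 m2 m3
    have hfin : ∀ F : Set (ℝ × ℝ), F.Finite →
        SpR (fun t : ℝ => B t.toNNReal ω) ≠ ⋃ p ∈ F, Icc p.1 p.2 := fun F hF =>
      no_finite m1 m2 m3 h5.closure_interior.le hF
    exact ⟨hfin, comp_infinite (V11330.Span.isCompact_SpR h5.cont) hfin⟩

end Pool.Agent.V11191.Comp
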