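import Pool.Agent.V11191.Comp.Comb

/-!
# Deterministic part: a good configuration creates a gap
-/

open Set MeasureTheory Filter Topology ProbabilityTheory
open scoped NNReal ENNReal
open Pool.Agent.TH970

namespace Pool.Agent.V11191.Comp

/-- passage structure of a path -/
structure Pas (η : ℝ) (x : ℝ → ℝ) (u : ℕ → ℝ) : Prop where
  pos : ∀ i, 0 < u i
  lt : ∀ (i : ℕ) s, 0 ≤ s → s < TT u (i + 1) → x s < (i + 1) * η
  le : ∀ (i : ℕ) s, 0 ≤ s → s ≤ TT u i → x s ≤ i * η
  lev : ∀ i : ℕ, x (TT u i) = i * η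

lemma Pas.mono {η : ℝ} {x : ℝ → ℝ} {u : ℕ → ℝ} (h : Pas η x u) : Monotone (TT u) :=
  TT_mono fun i => (h.pos i).le

lemma TT_zero (u : ℕ → ℝ) : TT u 0 = 0 := by simp [TT]

lemma exists_cell {u : ℕ → ℝ} {s : ℝ} (hs : 0 ≤ s) {K : ℕ} (h : s < TT u K) :
    ∃ l < K, TT u l ≤ s ∧ s < TT u (l + 1) := by
  induction K with
  | zero => rw [TT_zero] at h; linarith
  | succ K ih =>
    rcases lt_or_ge s (TT u K) with h1 | h1
    · obtain ⟨l, h2, h3⟩ := ih h1
      exact ⟨l, by omega, h3⟩
    · exact ⟨K, by omega, h1, h⟩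

variable {η : ℝ} {x x' : ℝ → ℝ} {u u' : ℕ → ℝ} {N j : ℕ} {v : ℝ}

lemma base (hx : Pas η x u) (hx' : Pas η x' u') {l : ℕ} (hl : l ≤ N + 3) {s ℓ : ℝ} (hs0 : 0 ≤ s)
    (h1 : TT u l ≤ s) (h2 : s < TT u (l + 1)) (hsl : s ≤ ℓ)
    (hg : ℓ ≤ TT u l + TT u' (N + 3 - l)) : x s + x' (ℓ - s) < (N + 4) * η := by
  have e1 := hx.lt l s hs0 h2
  have e2 := hx'.le (N + 3 - l) (ℓ - s) (by linarith) (by linarith)
  have e3 : ((N + 3 - l : ℕ) : ℝ) = N + 3 - l := by
    rw [Nat.cast_sub hl]; push_cast; ring
  rw [e3] at e2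
  linarith

/-- before the good position there is no pair -/
lemma gap_before (hx : Pas η x u) (hx' : Pas η x' u') (hg : Good N j v (3 * v) u u') (hv : 0 < v)
    {s ℓ : ℝ} (hs0 : 0 ≤ s) (hsl : s ≤ ℓ)
    (hℓ : ℓ ≤ TT u (j + 2) + TT u' (N - j + 2) - v) : x s + x' (ℓ - s) < (N + 4) * η := by
  have hj := hg.jN
  have hlast := hg.fwd (m := N) hj le_rfl
  rw [Nat.sub_self, TT_zero] at hlast
  have hs : s < TT u (N + 4) := by
    have : TT u (N + 4) = TT u (N + 3) + u (N + 3) := TT_succ _ _
    have := hx.pos (N + 3)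
    linarith
  obtain ⟨l, hl, h1, h2⟩ := exists_cell hs0 hs
  refine base hx hx' (by omega) hs0 h1 h2 hsl ?_
  rcases Nat.lt_or_ge l (j + 3) with h3 | h3
  · rcases Nat.lt_or_ge l (j + 1) with h4 | h4
    · have := hg.bwd (m := l) (by omega)
      have e : N + 3 - l = N + 3 - l := rfl
      linarith
    · rcases Nat.lt_or_ge l (j + 2) with h5 | h5
      · have e : l = j + 1 := by omega
        subst e
        have e2 : N + 3 - (j + 1) = N - j + 2 := by omega
        rw [e2]
        have e3 : TT u (j + 2) = TT u (j + 1) + u (j + 1) := TT_succ _ _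
        have := hg.s2
        linarith
      · have e : l = j + 2 := by omega
        subst e
        have e2 : N + 3 - (j + 2) = N - j + 1 := by omega
        rw [e2]
        have e3 : TT u' (N - j + 2) = TT u' (N - j + 1) + u' (N - j + 1) := TT_succ _ _
        have := hg.s2'
        linarith
  · have := hg.fwd (m := l - 3) (by omega) (by omega)
    have e1 : l - 3 + 3 = l := by omega
    have e2 : N - (l - 3) = N + 3 - l := by omega
    rw [e1, e2] at this
    linarith

/-- just after the good position there is no pair -/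
lemma gap_after (hη : 0 < η) (hx : Pas η x u) (hx' : Pas η x' u')
    (hg : Good N j v (3 * v) u u') (hv : 0 < v)
    (d1 : ∀ h, 0 ≤ h → h ≤ 3 * v → x (TT u (j + 2) + h) < (j + 3) * η)
    (d2 : ∀ h, v / 2 ≤ h → h ≤ 3 * v → x (TT u (j + 2) + h) ≤ (j + 1) * η)
    (d1' : ∀ h, 0 ≤ h → h ≤ 3 * v → x' (TT u' (N - j + 2) + h) < (N - j + 3) * η)
    (d2' : ∀ h, v / 2 ≤ h → h ≤ 3 * v → x' (TT u' (N - j + 2) + h) ≤ (N - j + 1) * η)
    {s : ℝ} (hs0 : 0 ≤ s) {ℓ : ℝ} (hsl : s ≤ ℓ)
    (hℓ : ℓ = TT u (j + 2) + TT u' (N - j + 2) + v) : x s + x' (ℓ - s) < (N + 4) * η := by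
  have hj := hg.jN
  have hlast := hg.fwd (m := N) hj le_rfl
  rw [Nat.sub_self, TT_zero] at hlast
  have hs : s < TT u (N + 4) := by
    have : TT u (N + 4) = TT u (N + 3) + u (N + 3) := TT_succ _ _
    have := hx.pos (N + 3)
    linarith
  obtain ⟨l, hl, h1, h2⟩ := exists_cell hs0 hs
  rcases Nat.lt_or_ge l (j + 3) with h3 | h3
  · rcases Nat.lt_or_ge l (j + 1) with h4 | h4
    · refine base hx hx' (by omega) hs0 h1 h2 hsl ?_
      have := hg.bwd (m := l) (by omega)
      linarith
    · rcases Nat.lt_or_ge l (j + 2) with h5 | h5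
      · have e : l = j + 1 := by omega
        subst e
        have e3 : TT u (j + 2) = TT u (j + 1) + u (j + 1) := TT_succ _ _
        have hs2 := hg.s2
        have h2' : s < TT u (j + 2) := h2
        have e4 := hx.lt (j + 1) s hs0 h2
        push_cast at e4
        set h := TT u (j + 2) - s with hh
        have e5 : ℓ - s = TT u' (N - j + 2) + (v + h) := by rw [hℓ, hh]; ring
        rw [e5]
        have e6 := d2' (v + h) (by linarith) (by linarith)
        nlinarith
      · have e : l = j + 2 := by omega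
        subst e
        set h := s - TT u (j + 2) with hh
        have hh0 : 0 ≤ h := by linarith
        have e7 : s = TT u (j + 2) + h := by rw [hh]; ring
        rcases le_or_gt h v with h6 | h6
        · have e5 : ℓ - s = TT u' (N - j + 2) + (v - h) := by rw [hℓ, hh]; ring
          rw [e5]
          rcases le_or_gt (v/2) h with h7 | h7
          · have e8 := d2 h h7 (by linarith)
            have e9 := d1' (v - h) (by linarith) (by linarith)
            rw [← e7] at e8
            nlinarith
          · have e8 := d1 h hh0 (by linarith)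
            have e9 := d2' (v - h) (by linarith) (by linarith)
            rw [← e7] at e8
            nlinarith
        · have hle : ℓ - s ≤ TT u' (N - j + 2) := by rw [hℓ]; linarith
          rcases le_or_gt h (3 * v) with h7 | h7
          · have e8 := d2 h (by linarith) h7
            rw [← e7] at e8
            have e9 := hx'.le (N - j + 2) (ℓ - s) (by linarith) hle
            have e10 : ((N - j + 2 : ℕ) : ℝ) = N - j + 2 := by
              rw [Nat.cast_add, Nat.cast_sub hj]; norm_num
            rw [e10] at e9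
            nlinarith
          · have e8 := hx.lt (j + 2) s hs0 h2
            push_cast at e8
            have e3 : TT u' (N - j + 2) = TT u' (N - j + 1) + u' (N - j + 1) := TT_succ _ _
            have hs2 := hg.s2'
            have e9 := hx'.le (N - j + 1) (ℓ - s) (by linarith) (by rw [hℓ]; linarith)
            have e10 : ((N - j + 1 : ℕ) : ℝ) = N - j + 1 := by
              rw [Nat.cast_add, Nat.cast_sub hj]; norm_num
            rw [e10] at e9
            nlinarith
  · refine base hx hx' (by omega) hs0 h1 h2 hsl ?_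
    have := hg.fwd (m := l - 3) (by omega) (by omega)
    have e1 : l - 3 + 3 = l := by omega
    have e2 : N - (l - 3) = N + 3 - l := by omega
    rw [e1, e2] at this
    linarith

/-! ### the passage structure of a Brownian path -/

/-- unbounded above -/
def UA (w : ℝ≥0 → ℝ) : Prop := ∀ M : ℝ, ∃ t, M ≤ w t

section
variable {Ω : Type*} {X : ℝ≥0 → Ω → ℝ} {ω : Ω} {a : ℝ}

/-- passage durations, as nonnegative reals -/
noncomputable def uu (a : ℝ) (X : ℝ≥0 → Ω → ℝ) (ω : Ω) (i : ℕ) : ℝ≥0 := TN a (path (it a i X) ω)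

/-- passage times -/
noncomputable def UU (a : ℝ) (X : ℝ≥0 → Ω → ℝ) (ω : Ω) (i : ℕ) : ℝ≥0 :=
  ∑ k ∈ Finset.range i, uu a X ω k

lemma UU_succ (i : ℕ) : UU a X ω (i + 1) = UU a X ω i + uu a X ω i := Finset.sum_range_succ _ _

lemma it_apply (i : ℕ) (t : ℝ≥0) :
    path (it a i X) ω t = path X ω (UU a X ω i + t) - path X ω (UU a X ω i) +
      (if i = 0 then path X ω 0 else 0) := by
  induction i generalizing t with
  | zero => simp [it, UU]
  | succ i ih =>
    rw [it_succ]
    have h1 : path (post a (it a i X)) ω t = path (it a i X) ω (uu a X ω i + t) -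
        path (it a i X) ω (uu a X ω i) := rfl
    rw [h1, ih, ih, UU_succ, if_neg (Nat.succ_ne_zero i), add_assoc]
    ring

lemma UA_it (hc : Continuous (path X ω)) (hu : UA (path X ω)) (i : ℕ) : UA (path (it a i X) ω) := by
  intro M
  obtain ⟨B, hB⟩ := (isCompact_Icc (a := (0:ℝ≥0)) (b := UU a X ω i)).exists_bound_of_continuousOn
    hc.continuousOn
  obtain ⟨t, ht⟩ := hu (max (M + path X ω (UU a X ω i) + |path X ω 0|) (B + 1))
  have h1 := (le_max_left _ _).trans ht
  have h2 := (le_max_right _ _).trans ht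
  have h3 : UU a X ω i ≤ t := by
    by_contra hcon
    have := hB t ⟨zero_le, (not_le.1 hcon).le⟩
    rw [Real.norm_eq_abs] at this
    have := le_abs_self (path X ω t)
    linarith
  refine ⟨t - UU a X ω i, ?_⟩
  rw [it_apply, add_tsub_cancel_of_le h3]
  have h4 : -|path X ω 0| ≤ (if i = 0 then path X ω 0 else 0) := by
    split_ifs
    · exact neg_abs_le _
    · have := abs_nonneg (path X ω 0); linarith
  linarith

lemma it_cont (hc : Continuous (path X ω)) (i : ℕ) : Continuous (path (it a i X) ω) := by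
  have : path (it a i X) ω = fun t => path X ω (UU a X ω i + t) - path X ω (UU a X ω i) +
      (if i = 0 then path X ω 0 else 0) := funext fun t => it_apply i t
  rw [this]; fun_prop

lemma it_zero (h0 : path X ω 0 = 0) (i : ℕ) : path (it a i X) ω 0 = 0 := by
  rw [it_apply, add_zero, sub_self, h0]; simp

lemma UU_level (ha : 0 < a) (hc : Continuous (path X ω)) (h0 : path X ω 0 = 0)
    (hu : UA (path X ω)) (i : ℕ) : path X ω (UU a X ω i) = i * a := by
  induction i with
  | zero => simp [UU, h0]
  | succ i ih =>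
    have h1 := apply_TN (it_cont (a := a) hc i) (by rw [it_zero h0]; exact ha)
      (UA_it (a := a) hc hu i a)
    rw [it_apply, h0] at h1
    rw [UU_succ]
    have h2 : (if i = 0 then (0:ℝ) else 0) = 0 := by simp
    rw [h2, add_zero, ih] at h1
    push_cast
    unfold uu
    linarith

lemma UU_lt (ha : 0 < a) (hc : Continuous (path X ω)) (h0 : path X ω 0 = 0)
    (hu : UA (path X ω)) (i : ℕ) {s : ℝ≥0} (hs : s < UU a X ω (i + 1)) :
    path X ω s < (i + 1) * a := by
  induction i with
  | zero =>
    rw [UU_succ] at hs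
    simp only [UU, Finset.range_zero, Finset.sum_empty, zero_add] at hs
    have := lt_of_lt_TN (it_cont (a := a) hc 0) (UA_it (a := a) hc hu 0 a) hs
    simpa [it] using this
  | succ i ih =>
    rcases lt_or_ge s (UU a X ω (i + 1)) with h1 | h1
    · have := ih h1
      push_cast; linarith
    · have h2 : s - UU a X ω (i + 1) < uu a X ω (i + 1) := by
        rw [tsub_lt_iff_left h1, ← UU_succ]; exact hs
      have h3 := lt_of_lt_TN (it_cont (a := a) hc (i+1)) (UA_it (a := a) hc hu (i+1) a) h2
      rw [it_apply, add_tsub_cancel_of_le h1, if_neg (Nat.succ_ne_zero i),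
        UU_level ha hc h0 hu (i+1)] at h3
      push_cast at h3 ⊢
      linarith

lemma uu_pos (ha : 0 < a) (hc : Continuous (path X ω)) (h0 : path X ω 0 = 0)
    (hu : UA (path X ω)) (i : ℕ) : 0 < uu a X ω i :=
  TN_pos (it_cont (a := a) hc i) (by rw [it_zero h0]; exact ha) (UA_it (a := a) hc hu i a)

lemma UU_coe (i : ℕ) : ((UU a X ω i : ℝ≥0) : ℝ) = TT (fun k => (uu a X ω k : ℝ)) i := by
  unfold UU TT; push_cast; rfl

/-- the passage structure -/
lemma pas (ha : 0 < a) (hc : Continuous (path X ω)) (h0 : path X ω 0 = 0)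
    (hu : UA (path X ω)) : Pas a (fun t => path X ω t.toNNReal) (fun k => (uu a X ω k : ℝ)) := by
  have hlt : ∀ (i : ℕ) (s : ℝ), 0 ≤ s → s < TT (fun k => (uu a X ω k : ℝ)) (i + 1) →
      path X ω s.toNNReal < (i + 1) * a := by
    intro i s hs0 hs
    refine UU_lt ha hc h0 hu i ?_
    rw [← NNReal.coe_lt_coe, UU_coe, Real.coe_toNNReal _ hs0]; exact hs
  have hlev : ∀ i : ℕ, path X ω (TT (fun k => (uu a X ω k : ℝ)) i).toNNReal = i * a := by
    intro i
    rw [← UU_coe, Real.toNNReal_coe]; exact UU_level ha hc h0 hu i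
  refine ⟨fun i => ?_, hlt, ?_, hlev⟩
  · exact_mod_cast uu_pos ha hc h0 hu i
  · intro i s hs0 hs
    rcases hs.eq_or_lt with h1 | h1
    · rw [h1]; exact (hlev i).le
    · cases i with
      | zero => rw [TT_zero] at h1; linarith
      | succ i =>
        have := hlt i s hs0 h1
        push_cast; exact this.le

end

end Pool.Agent.V11191.Comp
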