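import Pool.Agent.TH970.Reflect
import Pool.Agent.V11191.Knight.L2

/-!
# First passage times and the strong Markov property at a first passage time
-/

open Set MeasureTheory Filter Topology ProbabilityTheory
open scoped NNReal ENNReal
open Pool.Agent.TH970

namespace Pool.Agent.V11191.Comp

open Pool.Agent.V11191.Knight

/-- first passage time -/
noncomputable def TI (a : ℝ) (w : ℝ≥0 → ℝ) : ℝ≥0∞ :=
  ⨅ n, if a ≤ mx w 0 (dq n) then (dq n : ℝ≥0∞) else ⊤

lemma measurable_TI (a : ℝ) : Measurable (TI a) := by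
  unfold TI
  refine Measurable.iInf fun n => ?_
  exact Measurable.ite (measurableSet_le measurable_const (measurable_mx 0 (dq n)))
    measurable_const measurable_const

lemma exists_dq {x y : ℝ≥0} (h : x < y) : ∃ n, x < dq n ∧ dq n < y := by
  obtain ⟨n, hn⟩ := dense_dq.exists_mem_open isOpen_Ioo (nonempty_Ioo.2 h)
  exact ⟨n, hn.1, hn.2⟩

lemma TI_le_iff {a : ℝ} {w : ℝ≥0 → ℝ} (hw : Continuous w) (t : ℝ≥0) :
    TI a w ≤ t ↔ a ≤ mx w 0 t := by
  constructor
  · intro h
    by_contra hcon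
    push Not at hcon
    -- room
    have h1 : w t < a := lt_of_le_of_lt (le_mx hw zero_le le_rfl) hcon
    have h2 : {u | w u < a} ∈ 𝓝 t := (isOpen_lt hw continuous_const).mem_nhds h1
    obtain ⟨ε, hε, hball⟩ := Metric.mem_nhds_iff.mp h2
    set s : ℝ≥0 := t + (ε/2).toNNReal with hs
    have he : ((ε/2).toNNReal : ℝ) = ε/2 := Real.coe_toNNReal _ (by positivity)
    have hts : t < s := by
      rw [hs, ← NNReal.coe_lt_coe, NNReal.coe_add, he]; linarith
    have hms : mx w 0 s < a := by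
      obtain ⟨u, _, hu2, hu3⟩ := exists_mx hw (zero_le (a := s))
      rw [hu3]
      rcases le_total u t with h3 | h3
      · exact lt_of_le_of_lt (le_mx hw zero_le h3) hcon
      · apply hball
        rw [Metric.mem_ball, NNReal.dist_eq, abs_of_nonneg (by
          have : (t:ℝ) ≤ u := h3
          linarith)]
        have : (u:ℝ) ≤ s := hu2
        rw [hs, NNReal.coe_add, he] at this
        linarith
    have h4 : (s : ℝ≥0∞) ≤ TI a w := by
      unfold TI
      refine le_iInf fun n => ?_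
      split_ifs with h5
      · have : s ≤ dq n := by
          by_contra h6
          push Not at h6
          have := mx_mono hw (zero_le (a := dq n)) h6.le
          linarith
        exact_mod_cast this
      · exact le_top
    have h5 : (s : ℝ≥0∞) ≤ t := h4.trans h
    have h6 : s ≤ t := by exact_mod_cast h5
    exact absurd hts (not_lt.2 h6)
  · intro h
    refine le_of_forall_gt fun c hc => ?_
    rcases eq_or_ne c ⊤ with h0 | h0
    · subst h0
      obtain ⟨n, h1, h2⟩ := exists_dq (show t < t + 1 by simp)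
      refine lt_of_le_of_lt (iInf_le _ n) ?_
      rw [if_pos (h.trans (mx_mono hw zero_le h1.le))]
      exact ENNReal.coe_lt_top
    · lift c to ℝ≥0 using h0
      have hc' : t < c := by exact_mod_cast hc
      obtain ⟨n, h1, h2⟩ := exists_dq hc'
      refine lt_of_le_of_lt (iInf_le _ n) ?_
      rw [if_pos (h.trans (mx_mono hw zero_le h1.le))]
      exact_mod_cast h2

/-- first passage time as a number -/
noncomputable def TN (a : ℝ) (w : ℝ≥0 → ℝ) : ℝ≥0 := (TI a w).toNNReal

lemma measurable_TN (a : ℝ) : Measurable (TN a) := (measurable_TI a).ennreal_toNNReal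

lemma TI_ne_top {a : ℝ} {w : ℝ≥0 → ℝ} (hw : Continuous w) (hit : ∃ t, a ≤ w t) : TI a w ≠ ⊤ := by
  obtain ⟨t, ht⟩ := hit
  have : TI a w ≤ t := (TI_le_iff hw t).2 (ht.trans (le_mx hw zero_le le_rfl))
  exact ne_top_of_le_ne_top ENNReal.coe_ne_top this

lemma TN_le_iff {a : ℝ} {w : ℝ≥0 → ℝ} (hw : Continuous w) (hit : ∃ t, a ≤ w t) (t : ℝ≥0) :
    TN a w ≤ t ↔ a ≤ mx w 0 t := by
  rw [← TI_le_iff hw, TN, ← ENNReal.coe_le_coe, ENNReal.coe_toNNReal (TI_ne_top hw hit)]

lemma lt_of_lt_TN {a : ℝ} {w : ℝ≥0 → ℝ} (hw : Continuous w) (hit : ∃ t, a ≤ w t) {s : ℝ≥0}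
    (hs : s < TN a w) : w s < a := by
  have h1 : ¬ a ≤ mx w 0 s := by rw [← TN_le_iff hw hit]; exact not_le.2 hs
  exact lt_of_le_of_lt (le_mx hw zero_le le_rfl) (not_le.1 h1)

lemma TN_pos {a : ℝ} {w : ℝ≥0 → ℝ} (hw : Continuous w) (h0 : w 0 < a) (hit : ∃ t, a ≤ w t) :
    0 < TN a w := by
  by_contra hcon
  have h1 : TN a w ≤ 0 := not_lt.1 hcon
  rw [TN_le_iff hw hit] at h1
  have h2 : mx w 0 0 ≤ w 0 := mx_le le_rfl fun s _ h => by rw [nonpos_iff_eq_zero.1 h]
  linarith

lemma apply_TN {a : ℝ} {w : ℝ≥0 → ℝ} (hw : Continuous w) (h0 : w 0 < a) (hit : ∃ t, a ≤ w t) :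
    w (TN a w) = a := by
  have hpos := TN_pos hw h0 hit
  apply le_antisymm
  · by_contra hcon
    push Not at hcon
    have h2 : {u | a < w u} ∈ 𝓝 (TN a w) := (isOpen_lt continuous_const hw).mem_nhds hcon
    obtain ⟨ε, hε, hball⟩ := Metric.mem_nhds_iff.mp h2
    set u : ℝ≥0 := TN a w - (ε/2).toNNReal with hu
    have he : ((ε/2).toNNReal : ℝ) = ε/2 := Real.coe_toNNReal _ (by positivity)
    have hu1 : u < TN a w := tsub_lt_self hpos (by rw [Real.toNNReal_pos]; positivity)
    have h3 := lt_of_lt_TN hw hit hu1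
    have h4 : a < w u := by
      apply hball
      rw [Metric.mem_ball, NNReal.dist_eq, abs_sub_comm, abs_of_nonneg (by
        have : (u:ℝ) ≤ TN a w := hu1.le
        linarith)]
      have h5 : ((TN a w : ℝ≥0) : ℝ) ≤ u + (ε/2).toNNReal := by
        rw [← NNReal.coe_add, NNReal.coe_le_coe]; exact le_tsub_add
      rw [he] at h5
      linarith
    linarith
  · have h1 := (TN_le_iff hw hit (TN a w)).1 le_rfl
    obtain ⟨u, _, hu2, hu3⟩ := exists_mx hw (zero_le (a := TN a w))
    rw [hu3] at h1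
    rcases hu2.eq_or_lt with h | h
    · rw [← h]; exact h1
    · have := lt_of_lt_TN hw hit h
      linarith

end Pool.Agent.V11191.Comp
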