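import Pool.Agent.V11191.Comp.SM

/-!
# The pieces of a Brownian path between first passages are i.i.d.
-/

open Set MeasureTheory Filter Topology ProbabilityTheory
open scoped NNReal ENNReal
open Pool.Agent.TH970

namespace Pool.Agent.V11191.Comp

open Pool.Agent.V11191.Knight

/-- the special event: the path stays below `a` up to `c1` and below `-a` on `[c1,c2]` -/
def DE (a : ℝ) (c1 c2 : ℝ≥0) (w : ℝ≥0 → ℝ) : Prop := mx w 0 c1 < a ∧ mx w c1 c2 ≤ -a

/-- the data of a piece -/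
noncomputable def qq (a : ℝ) (c1 c2 : ℝ≥0) (w : ℝ≥0 → ℝ) : ℝ≥0 × Prop := (TN a w, DE a c1 c2 w)

lemma measurable_qq (a : ℝ) (c1 c2 : ℝ≥0) : Measurable (qq a c1 c2) := by
  refine (measurable_TN a).prodMk ?_
  refine measurableSet_setOfPred.1 ?_
  exact (measurableSet_lt (measurable_mx 0 c1) measurable_const).inter
    (measurableSet_le (measurable_mx c1 c2) measurable_const)

variable {Ω : Type*} [mΩ : MeasurableSpace Ω] {P : Measure Ω}

omit mΩ in
lemma FT_univ {a : ℝ} {X : ℝ≥0 → Ω → ℝ} (hc : ∀ ω, Continuous (path X ω)) : FT a X univ := by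
  intro t0
  rw [univ_inter]
  have : {ω | TI a (path X ω) ≤ t0} = {ω | a ≤ mx (path X ω) 0 t0} := by
    ext ω; exact TI_le_iff (hc ω) t0
  rw [this]
  exact @meas_mx Ω (mF X t0) X t0 (fun s hs => mF_meas X hs) a

/-- the events determined before the passage -/
@[instance_reducible] def GS (a : ℝ) (X : ℝ≥0 → Ω → ℝ) (hc : ∀ ω, Continuous (path X ω)) :
    MeasurableSpace Ω where
  MeasurableSet' A := MeasurableSet A ∧ FT a X A
  measurableSet_empty := ⟨MeasurableSet.empty, fun t0 => by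
    rw [empty_inter]; exact @MeasurableSet.empty _ (mF X t0)⟩
  measurableSet_compl A hA := ⟨hA.1.compl, fun t0 => by
    have h1 := FT_univ hc t0 (a := a)
    have h2 := hA.2 t0
    have e : Aᶜ ∩ {ω | TI a (path X ω) ≤ t0} = (univ ∩ {ω | TI a (path X ω) ≤ t0}) \
        (A ∩ {ω | TI a (path X ω) ≤ t0}) := by
      ext ω
      simp only [mem_inter_iff, mem_compl_iff, Set.mem_sdiff, mem_univ, true_and]
      tauto
    rw [e]
    exact @MeasurableSet.diff _ (mF X t0) _ _ h1 h2⟩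
  measurableSet_iUnion A hA := ⟨MeasurableSet.iUnion fun i => (hA i).1, fun t0 => by
    rw [iUnion_inter]
    exact @MeasurableSet.iUnion _ _ (mF X t0) _ _ fun i => (hA i).2 t0⟩

omit mΩ in
lemma meas_of_Iic (m : MeasurableSpace Ω) {f : Ω → ℝ≥0}
    (h : ∀ t, MeasurableSet[m] (f ⁻¹' Iic t)) : Measurable[m] f := measurable_of_Iic h

omit mΩ in
lemma meas_pair (m : MeasurableSpace Ω) {β γ : Type*} [MeasurableSpace β] [MeasurableSpace γ]
    {f : Ω → β} {g : Ω → γ} (hf : Measurable[m] f) (hg : Measurable[m] g) :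
    Measurable[m] (fun ω => (f ω, g ω)) := Measurable.prodMk hf hg

lemma GS_TN {a : ℝ} {X : ℝ≥0 → Ω → ℝ} (h : QP X) :
    Measurable[GS a X h.cont] (fun ω => TN a (path X ω)) := by
  refine meas_of_Iic (GS a X h.cont) fun t => ⟨?_, fun t0 => ?_⟩
  · exact (measurable_TX a h) measurableSet_Iic
  · have e : (fun ω => TN a (path X ω)) ⁻¹' Iic t ∩ {ω | TI a (path X ω) ≤ t0} =
        univ ∩ {ω | TI a (path X ω) ≤ (min t t0 : ℝ≥0)} := by
      ext ω
      simp only [mem_inter_iff, mem_preimage, mem_Iic, mem_ofPred_eq, mem_univ, true_and]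
      constructor
      · rintro ⟨h1, h2⟩
        have hne : TI a (path X ω) ≠ ⊤ := ne_top_of_le_ne_top ENNReal.coe_ne_top h2
        rw [← ENNReal.coe_toNNReal hne] at h2 ⊢
        rw [ENNReal.coe_le_coe] at h2 ⊢
        exact le_min h1 h2
      · intro h1
        have hne : TI a (path X ω) ≠ ⊤ := ne_top_of_le_ne_top ENNReal.coe_ne_top h1
        rw [← ENNReal.coe_toNNReal hne] at h1
        rw [ENNReal.coe_le_coe] at h1
        refine ⟨h1.trans (min_le_left _ _), ?_⟩
        rw [← ENNReal.coe_toNNReal hne, ENNReal.coe_le_coe]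
        exact h1.trans (min_le_right _ _)
    rw [e]
    have h1 := FT_univ h.cont (a := a) (min t t0)
    exact mF_mono X (min_le_right t t0) _ h1

lemma meas_DE {Ω' : Type*} [MeasurableSpace Ω'] {X : ℝ≥0 → Ω' → ℝ} {c1 c2 : ℝ≥0} (hc : c1 ≤ c2)
    (hX : ∀ s ≤ c2, Measurable (X s)) (a : ℝ) : MeasurableSet {ω | DE a c1 c2 (path X ω)} := by
  have e : {ω | DE a c1 c2 (path X ω)} = {ω | mx (path X ω) 0 c1 < a} ∩
      {ω | mx (path X ω) c1 c2 ≤ -a} := rfl
  rw [e]
  refine MeasurableSet.inter (measurableSet_lt ?_ measurable_const)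
    (measurableSet_le ?_ measurable_const)
  · unfold mx
    exact Measurable.iSup fun n => hX _ ((max_le zero_le (min_le_right _ _)).trans hc)
  · unfold mx
    exact Measurable.iSup fun n => hX _ (max_le hc (min_le_right _ _))

lemma DE.lt {a : ℝ} (ha : 0 < a) {c1 c2 : ℝ≥0} {w : ℝ≥0 → ℝ} (hw : Continuous w)
    (h : DE a c1 c2 w) {s : ℝ≥0} (hs : s ≤ c2) : w s < a := by
  rcases le_total s c1 with h1 | h1
  · exact lt_of_le_of_lt (le_mx hw zero_le h1) h.1
  · have := le_mx hw h1 hs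
    have := h.2
    linarith

lemma GS_DE {a : ℝ} (ha : 0 < a) {c1 c2 : ℝ≥0} (hc : c1 ≤ c2) {X : ℝ≥0 → Ω → ℝ} (h : QP X) :
    MeasurableSet[GS a X h.cont] {ω | DE a c1 c2 (path X ω)} := by
  refine ⟨meas_DE hc (fun s _ => h.meas s) a, fun t0 => ?_⟩
  rcases le_or_gt t0 c2 with h1 | h1
  · have e : {ω | DE a c1 c2 (path X ω)} ∩ {ω | TI a (path X ω) ≤ t0} = ∅ := by
      rw [eq_empty_iff_forall_notMem]
      rintro ω ⟨h2, h3⟩
      simp only [mem_ofPred_eq] at h2 h3
      rw [TI_le_iff (h.cont ω)] at h3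
      obtain ⟨s, _, hs2, hs3⟩ := exists_mx (h.cont ω) (zero_le (a := t0))
      have := DE.lt ha (h.cont ω) h2 (hs2.trans h1)
      linarith
    rw [e]; exact @MeasurableSet.empty _ (mF X t0)
  · have h2 : MeasurableSet[mF X c2] {ω | DE a c1 c2 (path X ω)} :=
      @meas_DE Ω (mF X c2) X c1 c2 hc (fun s hs => mF_meas X hs) a
    have h3 := FT_univ h.cont (a := a) t0
    rw [univ_inter] at h3
    exact @MeasurableSet.inter _ (mF X t0) _ _ (mF_mono X h1.le _ h2) h3

lemma GS_qq {a : ℝ} (ha : 0 < a) {c1 c2 : ℝ≥0} (hc : c1 ≤ c2) {X : ℝ≥0 → Ω → ℝ} (h : QP X) :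
    Measurable[GS a X h.cont] (fun ω => qq a c1 c2 (path X ω)) := by
  have h1 : Measurable[GS a X h.cont] (fun ω => TN a (path X ω)) := GS_TN h
  have h2 : Measurable[GS a X h.cont] (fun ω => DE a c1 c2 (path X ω)) :=
    (@measurableSet_setOfPred _ (GS a X h.cont) _).1 (GS_DE ha hc h)
  exact meas_pair (GS a X h.cont) h1 h2

/-- iterated post processes -/
noncomputable def it {Ω' : Type*} (a : ℝ) : ℕ → (ℝ≥0 → Ω' → ℝ) → (ℝ≥0 → Ω' → ℝ)
  | 0, X => X
  | i + 1, X => it a i (post a X)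

lemma it_succ {Ω' : Type*} (a : ℝ) (i : ℕ) (X : ℝ≥0 → Ω' → ℝ) :
    it a (i + 1) X = post a (it a i X) := by
  induction i generalizing X with
  | zero => rfl
  | succ i ih => show it a (i + 1) (post a X) = _; rw [ih]; rfl

lemma QP.it {Ω' : Type*} [MeasurableSpace Ω'] {X : ℝ≥0 → Ω' → ℝ} (a : ℝ) (h : QP X) (i : ℕ) :
    QP (it a i X) := by
  induction i generalizing X with
  | zero => exact h
  | succ i ih => exact ih (QP.post a h)

lemma CBM_it [IsProbabilityMeasure P] {X : ℝ≥0 → Ω → ℝ} (hX : CBM P X) {a : ℝ} (ha : 0 < a)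
    (i : ℕ) : CBM P (it a i X) := by
  induction i generalizing X with
  | zero => exact hX
  | succ i ih => exact ih (CBM_post hX ha)

lemma meas_q {Ω' : Type*} [MeasurableSpace Ω'] {X : ℝ≥0 → Ω' → ℝ} (a : ℝ) (c1 c2 : ℝ≥0)
    (h : QP X) (i : ℕ) : Measurable (fun ω => qq a c1 c2 (path (it a i X) ω)) :=
  (measurable_qq a c1 c2).comp (measurable_path (QP.it a h i).meas)

lemma law_q [IsProbabilityMeasure P] {X X' : ℝ≥0 → Ω → ℝ} (hX : CBM P X) (hX' : CBM P X')
    {S : Set (ℝ≥0 → ℝ)} (hS : MeasurableSet S) : P {ω | path X ω ∈ S} = P {ω | path X' ω ∈ S} := by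
  have := congrArg (fun μ => μ S) (law_unique hX.pre hX'.pre hX.meas hX'.meas)
  rw [Measure.map_apply (measurable_path hX.meas) hS,
    Measure.map_apply (measurable_path hX'.meas) hS] at this
  exact this

/-- **The pieces are i.i.d.** -/
theorem iid_aux [IsProbabilityMeasure P] {a : ℝ} (ha : 0 < a) {c1 c2 : ℝ≥0} (hc : c1 ≤ c2) (N : ℕ) :
    ∀ {X : ℝ≥0 → Ω → ℝ} (_hX : CBM P X) (R : ℕ → Set (ℝ≥0 × Prop)) (_hR : ∀ i, MeasurableSet (R i)),
    P {ω | ∀ i < N, qq a c1 c2 (path (it a i X) ω) ∈ R i} =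
      ∏ i ∈ Finset.range N, P {ω | qq a c1 c2 (path X ω) ∈ R i} := by
  induction N with
  | zero => intro X _ R _; simp
  | succ N ih =>
    intro X hX R hR
    have hq := CBM.qp hX
    set Y := post a X with hY
    have hYC : CBM P Y := CBM_post hX ha
    have hYq := CBM.qp hYC
    set A : Set Ω := {ω | qq a c1 c2 (path X ω) ∈ R 0} with hA
    set Bs : Set Ω := {ω | ∀ i < N, qq a c1 c2 (path (it a i Y) ω) ∈ R (i + 1)} with hBs
    have hAG : MeasurableSet[GS a X hq.cont] A := GS_qq ha hc hq (hR 0)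
    -- B is measurable for the post process
    have hB : MeasurableSet[MeasurableSpace.comap (path Y) inferInstance] Bs := by
      have hYq' : @QP Ω (MeasurableSpace.comap (path Y) inferInstance) Y :=
        @QP.mk Ω (MeasurableSpace.comap (path Y) inferInstance) Y
          (fun t => (measurable_pi_apply t).comp (comap_measurable (path Y))) hYq.cont hYq.zero
      have e : Bs = ⋂ i ∈ Finset.range N, {ω | qq a c1 c2 (path (it a i Y) ω) ∈ R (i + 1)} := by
        ext ω; simp [hBs]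
      rw [e]
      refine @Finset.measurableSet_biInter _ _ (MeasurableSpace.comap (path Y) inferInstance) _ _
        fun i _ => ?_
      exact (@meas_q Ω (MeasurableSpace.comap (path Y) inferInstance) Y a c1 c2 hYq' i) (hR (i+1))
    obtain ⟨S, hS, hSB⟩ := hB
    have hpY : Measurable (path Y) := measurable_path hYq.meas
    have hstr := strong hX ha hAG.1 hAG.2
    have h1 := congrArg (fun μ => μ S) hstr
    simp only [Measure.smul_apply, smul_eq_mul] at h1
    rw [Measure.map_apply hpY hS, Measure.restrict_apply (hpY hS),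
      Measure.map_apply (measurable_path hX.meas) hS] at h1
    have h2 : P (path X ⁻¹' S) = P Bs := by
      rw [← hSB]; exact law_q hX hYC hS
    rw [h2, hSB] at h1
    have h3 : {ω | ∀ i < N + 1, qq a c1 c2 (path (it a i X) ω) ∈ R i} = Bs ∩ A := by
      ext ω
      simp only [mem_ofPred_eq, mem_inter_iff, hBs, hA]
      constructor
      · intro h
        exact ⟨fun i hi => h (i + 1) (by omega), h 0 (by omega)⟩
      · rintro ⟨h4, h5⟩ i hi
        cases i with
        | zero => exact h5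
        | succ i => exact h4 i (by omega)
    rw [h3, h1, Finset.prod_range_succ', mul_comm]
    congr 1
    rw [ih hYC (fun i => R (i + 1)) fun i => hR (i + 1)]
    refine Finset.prod_congr rfl fun i _ => ?_
    exact (law_q hX hYC ((measurable_qq a c1 c2) (hR (i + 1)))).symm

/-- the doubled family of pieces -/
noncomputable def QF (a : ℝ) (c1 c2 : ℝ≥0) (X : ℝ≥0 → Ω → ℝ) (x : Bool × ℕ) (p : Ω × Ω) :
    ℝ≥0 × Prop := qq a c1 c2 (path (it a x.2 X) (if x.1 then p.2 else p.1))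

/-- the law of a piece -/
noncomputable def nuq (P : Measure Ω) (a : ℝ) (c1 c2 : ℝ≥0) (X : ℝ≥0 → Ω → ℝ) :
    Measure (ℝ≥0 × Prop) := P.map (fun ω => qq a c1 c2 (path X ω))

lemma meas_QF {a : ℝ} {c1 c2 : ℝ≥0} {X : ℝ≥0 → Ω → ℝ} (h : QP X) (x : Bool × ℕ) :
    Measurable (QF a c1 c2 X x) := by
  obtain ⟨b, i⟩ := x
  unfold QF
  cases b
  · simp only [Bool.false_eq_true, if_false]
    exact (meas_q a c1 c2 h i).comp measurable_fst
  · simp only [if_true]
    exact (meas_q a c1 c2 h i).comp measurable_snd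

lemma QF_bound [IsProbabilityMeasure P] {a : ℝ} (ha : 0 < a) {c1 c2 : ℝ≥0} (hc : c1 ≤ c2)
    {X : ℝ≥0 → Ω → ℝ} (hX : CBM P X) (N : ℕ) (R : Bool × ℕ → Set (ℝ≥0 × Prop))
    (hR : ∀ x, MeasurableSet (R x)) :
    (P.prod P) {p | ∀ x ∈ (Finset.univ ×ˢ Finset.range N : Finset (Bool × ℕ)), QF a c1 c2 X x p ∈ R x}
      = ∏ x ∈ (Finset.univ ×ˢ Finset.range N : Finset (Bool × ℕ)), nuq P a c1 c2 X (R x) := by
  have hm : Measurable (fun ω => qq a c1 c2 (path X ω)) :=
    (measurable_qq a c1 c2).comp (measurable_path hX.meas)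
  have e : {p : Ω × Ω | ∀ x ∈ (Finset.univ ×ˢ Finset.range N : Finset (Bool × ℕ)),
      QF a c1 c2 X x p ∈ R x} =
      {ω | ∀ i < N, qq a c1 c2 (path (it a i X) ω) ∈ R (false, i)} ×ˢ
      {ω | ∀ i < N, qq a c1 c2 (path (it a i X) ω) ∈ R (true, i)} := by
    ext ⟨ω1, ω2⟩
    simp only [mem_ofPred_eq, Finset.mem_product, Finset.mem_univ, Finset.mem_range, true_and,
      mem_prod, QF]
    constructor
    · intro h
      exact ⟨fun i hi => by simpa using h (false, i) hi, fun i hi => by simpa using h (true, i) hi⟩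
    · rintro ⟨h1, h2⟩ ⟨b, i⟩ hi
      cases b
      · simpa using h1 i hi
      · simpa using h2 i hi
  rw [e, Measure.prod_prod, iid_aux ha hc N hX _ fun i => hR _, iid_aux ha hc N hX _ fun i => hR _,
    Finset.prod_product]
  simp only [Fintype.univ_bool, Finset.prod_pair (show true ≠ false by decide)]
  rw [mul_comm]
  have h2 : ∀ x, P {ω | qq a c1 c2 (path X ω) ∈ R x} = nuq P a c1 c2 X (R x) := fun x => by
    unfold nuq; rw [Measure.map_apply hm (hR x)]; rfl
  simp_rw [h2]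

lemma prob_nuq [IsProbabilityMeasure P] {a : ℝ} {c1 c2 : ℝ≥0} {X : ℝ≥0 → Ω → ℝ} (h : QP X) :
    IsProbabilityMeasure (nuq P a c1 c2 X) :=
  Measure.isProbabilityMeasure_map ((measurable_qq a c1 c2).comp
    (measurable_path h.meas)).aemeasurable

theorem QF_gen [IsProbabilityMeasure P] {a : ℝ} (ha : 0 < a) {c1 c2 : ℝ≥0} (hc : c1 ≤ c2)
    {X : ℝ≥0 → Ω → ℝ} (hX : CBM P X) (S : Finset (Bool × ℕ)) (R : Bool × ℕ → Set (ℝ≥0 × Prop))
    (hR : ∀ x ∈ S, MeasurableSet (R x)) :
    (P.prod P) (⋂ x ∈ S, QF a c1 c2 X x ⁻¹' R x) = ∏ x ∈ S, nuq P a c1 c2 X (R x) := by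
  classical
  have hpr := prob_nuq (P := P) (a := a) (c1 := c1) (c2 := c2) (CBM.qp hX)
  obtain ⟨N, hN⟩ : ∃ N, ∀ x ∈ S, x.2 < N := by
    refine ⟨(S.sup Prod.snd) + 1, fun x hx => ?_⟩
    have : x.2 ≤ S.sup Prod.snd := Finset.le_sup (f := Prod.snd) hx
    omega
  have hSsub : S ⊆ (Finset.univ ×ˢ Finset.range N : Finset (Bool × ℕ)) := by
    intro x hx
    simp only [Finset.mem_product, Finset.mem_univ, Finset.mem_range, true_and]
    exact hN x hx
  have h := QF_bound ha hc hX N (fun x => if x ∈ S then R x else univ) (by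
    intro x
    by_cases hx : x ∈ S
    · simp only [hx, if_true]; exact hR x hx
    · simp only [hx, if_false]; exact MeasurableSet.univ)
  have e : {p | ∀ x ∈ (Finset.univ ×ˢ Finset.range N : Finset (Bool × ℕ)),
      QF a c1 c2 X x p ∈ (if x ∈ S then R x else univ)} = ⋂ x ∈ S, QF a c1 c2 X x ⁻¹' R x := by
    ext p
    simp only [mem_ofPred_eq, mem_iInter, mem_preimage]
    constructor
    · intro h x hx
      have := h x (hSsub hx)
      rwa [if_pos hx] at this
    · intro h x _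
      by_cases hx : x ∈ S
      · rw [if_pos hx]; exact h x hx
      · rw [if_neg hx]; exact mem_univ _
  rw [e] at h
  rw [h]
  rw [← Finset.prod_subset hSsub]
  · exact Finset.prod_congr rfl fun x hx => by rw [if_pos hx]
  · intro x _ hx
    rw [if_neg hx, measure_univ]

theorem QF_iIndep [IsProbabilityMeasure P] {a : ℝ} (ha : 0 < a) {c1 c2 : ℝ≥0} (hc : c1 ≤ c2)
    {X : ℝ≥0 → Ω → ℝ} (hX : CBM P X) : iIndepFun (QF a c1 c2 X) (P.prod P) := by
  rw [iIndepFun_iff_measure_inter_preimage_eq_mul]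
  intro S sets hsets
  rw [QF_gen ha hc hX S sets hsets]
  refine Finset.prod_congr rfl fun x hx => ?_
  have := QF_gen ha hc hX {x} sets (fun y hy => by
    rw [Finset.mem_singleton.1 hy]; exact hsets x hx)
  simp only [Finset.mem_singleton, iInter_iInter_eq_left, Finset.prod_singleton] at this
  exact this.symm

theorem QF_law [IsProbabilityMeasure P] {a : ℝ} (ha : 0 < a) {c1 c2 : ℝ≥0} (hc : c1 ≤ c2)
    {X : ℝ≥0 → Ω → ℝ} (hX : CBM P X) (x : Bool × ℕ) :
    (P.prod P).map (QF a c1 c2 X x) = nuq P a c1 c2 X := by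
  ext R hR
  rw [Measure.map_apply (meas_QF (CBM.qp hX) x) hR]
  have := QF_gen ha hc hX {x} (fun _ => R) (fun y _ => hR)
  simp only [Finset.mem_singleton, iInter_iInter_eq_left, Finset.prod_singleton] at this
  exact this

/-- the joint law along an injection -/
theorem QF_pi [IsProbabilityMeasure P] {a : ℝ} (ha : 0 < a) {c1 c2 : ℝ≥0} (hc : c1 ≤ c2)
    {X : ℝ≥0 → Ω → ℝ} (hX : CBM P X) {I : Type} [Fintype I] {e : I → Bool × ℕ}
    (he : Function.Injective e) :
    (P.prod P).map (fun p i => QF a c1 c2 X (e i) p) = Measure.pi fun _ => nuq P a c1 c2 X := by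
  have h1 := (QF_iIndep ha hc hX).precomp he
  rw [iIndepFun_iff_map_fun_eq_pi_map fun i => (meas_QF (CBM.qp hX) (e i)).aemeasurable] at h1
  rw [h1]
  congr 1
  funext i
  exact QF_law ha hc hX (e i)

end Pool.Agent.V11191.Comp
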