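import Pool.Agent.V11191.Comp.Hit

/-!
# The strong Markov property at a first passage time
-/

open Set MeasureTheory Filter Topology ProbabilityTheory
open scoped NNReal ENNReal
open Pool.Agent.TH970

namespace Pool.Agent.V11191.Comp

open Pool.Agent.V11191.Knight

variable {Ω : Type*} [mΩ : MeasurableSpace Ω] {P : Measure Ω}

/-- measurable with continuous paths, started at `0` -/
structure QP {Ω' : Type*} [MeasurableSpace Ω'] (X : ℝ≥0 → Ω' → ℝ) : Prop where
  meas : ∀ t, Measurable (X t)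
  cont : ∀ ω, Continuous (path X ω)
  zero : ∀ ω, X 0 ω = 0

lemma QP.unc {Ω' : Type*} [MeasurableSpace Ω'] {X : ℝ≥0 → Ω' → ℝ} (h : QP X) :
    Measurable (fun p : ℝ≥0 × Ω' => X p.1 p.2) :=
  measurable_uncurry_of_continuous_of_measurable h.cont h.meas

lemma CBM.qp {X : ℝ≥0 → Ω → ℝ} (h : CBM P X) : QP X := ⟨h.meas, h.cont, h.zero⟩

/-- passage time of a process -/
noncomputable def TX {Ω' : Type*} (a : ℝ) (X : ℝ≥0 → Ω' → ℝ) (ω : Ω') : ℝ≥0 := TN a (path X ω)

/-- the process after the passage time -/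
noncomputable def post {Ω' : Type*} (a : ℝ) (X : ℝ≥0 → Ω' → ℝ) (t : ℝ≥0) (ω : Ω') : ℝ :=
  X (TX a X ω + t) ω - X (TX a X ω) ω

lemma measurable_TX {Ω' : Type*} [MeasurableSpace Ω'] {X : ℝ≥0 → Ω' → ℝ} (a : ℝ) (h : QP X) :
    Measurable (TX a X) := (measurable_TN a).comp (measurable_path h.meas)

lemma QP.post {Ω' : Type*} [MeasurableSpace Ω'] {X : ℝ≥0 → Ω' → ℝ} (a : ℝ) (h : QP X) :
    QP (post a X) := by
  refine ⟨fun t => ?_, fun ω => ?_, fun ω => ?_⟩
  · have hT := measurable_TX a h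
    have h1 : Measurable (fun ω => X (TX a X ω + t) ω) :=
      h.unc.comp ((hT.add_const t).prodMk measurable_id)
    have h2 : Measurable (fun ω => X (TX a X ω) ω) := h.unc.comp (hT.prodMk measurable_id)
    exact h1.sub h2
  · have h1 := h.cont ω
    have : Continuous (fun t => path X ω (TX a X ω + t) - path X ω (TX a X ω)) := by fun_prop
    exact this
  · unfold Comp.post; rw [add_zero, sub_self]

lemma meas_mx {Ω' : Type*} [MeasurableSpace Ω'] {X : ℝ≥0 → Ω' → ℝ} {t0 : ℝ≥0}
    (hX : ∀ s ≤ t0, Measurable (X s)) (a : ℝ) : MeasurableSet {ω | a ≤ mx (path X ω) 0 t0} := by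
  refine measurableSet_le measurable_const ?_
  unfold mx
  exact Measurable.iSup fun n => hX _ (max_le zero_le (min_le_right _ _))

/-- events determined before the passage time -/
def FT (a : ℝ) (X : ℝ≥0 → Ω → ℝ) (A : Set Ω) : Prop :=
  ∀ t0 : ℝ≥0, MeasurableSet[mF X t0] (A ∩ {ω | TI a (path X ω) ≤ t0})

lemma hits_ae [IsProbabilityMeasure P] {X : ℝ≥0 → Ω → ℝ} (hX : CBM P X) (a : ℝ) :
    ∀ᵐ ω ∂P, ∃ t, a ≤ X t ω := by
  obtain ⟨M, hM⟩ := exists_nat_gt a
  have key : P {ω | ¬ ∃ t, (M:ℝ) < X t ω} = 0 := by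
    have hb : ∀ n : ℕ, P {ω | ¬ ∃ t, (M:ℝ) < X t ω} ≤
        ENNReal.ofReal ((√(2 * Real.pi * ((n + 1 : ℕ) : ℝ≥0)))⁻¹ * (2 * M)) := by
      intro n
      have hv : (((n + 1 : ℕ) : ℝ≥0)) ≠ 0 := by positivity
      have hv' : 0 < (((n + 1 : ℕ) : ℝ≥0)) := by positivity
      refine le_trans ?_ (gauss_small ((n + 1 : ℕ) : ℝ≥0) hv (Nat.cast_nonneg M))
      rw [← (hX.pre.hasLaw_eval ((n + 1 : ℕ) : ℝ≥0)).map_eq,
        Measure.map_apply (hX.meas _) measurableSet_Icc]
      refine (measure_mono ?_).trans (le_of_eq ((mx_law hX hv' (Nat.cast_nonneg M)).trans ?_))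
      · intro ω hω
        simp only [mem_ofPred_eq, not_exists, not_lt] at hω
        exact mx_le zero_le fun s _ _ => hω s
      · congr 1
        ext ω
        simp only [mem_ofPred_eq, mem_preimage, mem_Icc, abs_le]
    have hlim : Tendsto (fun n : ℕ => ENNReal.ofReal ((√(2 * Real.pi * ((n + 1 : ℕ) : ℝ≥0)))⁻¹ * (2 * M)))
        atTop (𝓝 0) := by
      rw [← ENNReal.ofReal_zero]
      refine ENNReal.tendsto_ofReal ?_
      rw [← zero_mul (2 * (M:ℝ))]
      refine Tendsto.mul_const _ ?_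
      refine Tendsto.inv_tendsto_atTop ?_
      refine Real.tendsto_sqrt_atTop.comp ?_
      refine Tendsto.const_mul_atTop (by positivity) ?_
      simp only [NNReal.coe_natCast]
      exact tendsto_natCast_atTop_atTop.comp (tendsto_add_atTop_nat 1)
    exact le_antisymm (ge_of_tendsto hlim (Eventually.of_forall hb)) bot_le
  have h2 : ∀ᵐ ω ∂P, ∃ t, (M:ℝ) < X t ω := by rw [ae_iff]; exact key
  filter_upwards [h2] with ω hω
  obtain ⟨t, ht⟩ := hω
  exact ⟨t, by linarith⟩

lemma shift_law [IsProbabilityMeasure P] {X : ℝ≥0 → Ω → ℝ} (hX : CBM P X) (t0 : ℝ≥0) :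
    P.map (path (fun t ω => X (t0 + t) ω - X t0 ω)) = P.map (path X) :=
  law_unique (hX.pre.shift t0) hX.pre (fun _ => (hX.meas _).sub (hX.meas _)) hX.meas

lemma ind_set [IsProbabilityMeasure P] {X : ℝ≥0 → Ω → ℝ} (hX : CBM P X) (t0 : ℝ≥0) {A : Set Ω}
    (hA : MeasurableSet[mF X t0] A) {S : Set (ℝ≥0 → ℝ)} (hS : MeasurableSet S) :
    P (A ∩ {ω | path (fun t ω => X (t0 + t) ω - X t0 ω) ω ∈ S}) = P A * P {ω | path X ω ∈ S} := by
  have h1 := (hX.pre.indepFun_shift t0).symm
  obtain ⟨R, hR, rfl⟩ := hA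
  have h2 := h1.measure_inter_preimage_eq_mul R S hR hS
  have h3 : P ((fun ω t => X (t0 + t) ω - X t0 ω) ⁻¹' S) = P {ω | path X ω ∈ S} := by
    have := congrArg (fun μ => μ S) (shift_law hX t0)
    have hmp : Measurable (path (fun t ω => X (t0 + t) ω - X t0 ω)) :=
      measurable_path fun t => (hX.meas _).sub (hX.meas _)
    rw [Measure.map_apply hmp hS, Measure.map_apply (measurable_path hX.meas) hS] at this
    exact this
  rw [← h3]
  exact h2

/-- dyadic upper approximation -/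
noncomputable def dy (m : ℕ) (t : ℝ≥0) : ℕ := ⌈t * 2^m⌉₊

lemma dy_ge (m : ℕ) (t : ℝ≥0) : t ≤ dy m t / 2^m := by
  rw [le_div_iff₀ (by positivity)]; exact Nat.le_ceil _

lemma dy_le (m : ℕ) (t : ℝ≥0) : (dy m t : ℝ≥0) / 2^m ≤ t + 1/2^m := by
  rw [div_le_iff₀ (by positivity), add_mul, div_mul_cancel₀ _ (by positivity)]
  exact (Nat.ceil_lt_add_one zero_le).le

lemma dy_tendsto (t : ℝ≥0) : Tendsto (fun m => (dy m t : ℝ≥0) / 2^m) atTop (𝓝 t) := by
  have h1 : Tendsto (fun m : ℕ => t + 1/(2:ℝ≥0)^m) atTop (𝓝 (t + 0)) := by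
    refine Tendsto.const_add _ ?_
    simp_rw [← one_div_pow]
    exact NNReal.tendsto_pow_atTop_nhds_zero_of_lt_one (by
      rw [← NNReal.coe_lt_coe]; norm_num)
  rw [add_zero] at h1
  exact tendsto_of_tendsto_of_tendsto_of_le_of_le tendsto_const_nhds h1 (fun m => dy_ge m t)
    (fun m => dy_le m t)

/-- the process after the dyadic approximation -/
noncomputable def postd {Ω' : Type*} (a : ℝ) (X : ℝ≥0 → Ω' → ℝ) (m : ℕ) (t : ℝ≥0) (ω : Ω') : ℝ :=
  X ((dy m (TX a X ω) : ℝ≥0) / 2^m + t) ω - X ((dy m (TX a X ω) : ℝ≥0) / 2^m) ω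

lemma dy_eq_iff (m : ℕ) (t : ℝ≥0) (k : ℕ) :
    dy m t = k + 1 ↔ t ≤ ((k + 1 : ℕ) : ℝ≥0) / 2^m ∧ ¬ t ≤ (k : ℝ≥0) / 2^m := by
  unfold dy
  rw [le_div_iff₀ (by positivity), le_div_iff₀ (by positivity)]
  constructor
  · intro h
    constructor
    · rw [← h]; exact Nat.le_ceil _
    · intro h2
      have := Nat.ceil_le.2 h2
      omega
  · rintro ⟨h1, h2⟩
    apply le_antisymm (Nat.ceil_le.2 h1)
    have : k < ⌈t * 2^m⌉₊ := Nat.lt_ceil.2 (not_le.1 h2)
    omega

lemma meas_postd [IsProbabilityMeasure P] {X : ℝ≥0 → Ω → ℝ} (hX : CBM P X) (a : ℝ) (m : ℕ)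
    (t : ℝ≥0) : Measurable (postd a X m t) := by
  have hT := measurable_TX a (CBM.qp hX)
  have hd : Measurable (fun ω => (dy m (TX a X ω) : ℝ≥0) / 2^m) := by
    have : Measurable (fun ω => dy m (TX a X ω)) := Nat.measurable_ceil.comp (hT.mul_const _)
    exact ((Measurable.of_discrete (f := fun n : ℕ => (n : ℝ≥0))).comp this).div_const _
  have h1 := (CBM.qp hX).unc.comp ((hd.add_const t).prodMk measurable_id)
  have h2 := (CBM.qp hX).unc.comp (hd.prodMk measurable_id)
  exact h1.sub h2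

lemma strong_d [IsProbabilityMeasure P] {X : ℝ≥0 → Ω → ℝ} (hX : CBM P X) {a : ℝ} (ha : 0 < a)
    {A : Set Ω} (_hA : MeasurableSet A) (hF : FT a X A) (m : ℕ) {S : Set (ℝ≥0 → ℝ)}
    (hS : MeasurableSet S) :
    P (A ∩ {ω | path (postd a X m) ω ∈ S}) = P A * P {ω | path X ω ∈ S} := by
  set q := P {ω | path X ω ∈ S} with hq
  set C : ℕ → Set Ω := fun k => (A ∩ {ω | TI a (path X ω) ≤ (((k + 1 : ℕ) : ℝ≥0) / 2^m : ℝ≥0)}) \
    (A ∩ {ω | TI a (path X ω) ≤ ((k : ℝ≥0) / 2^m : ℝ≥0)}) with hC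
  have hlem : ∀ k, MeasurableSet[mF X (((k + 1 : ℕ) : ℝ≥0) / 2^m)] (C k) := by
    intro k
    have h1 := hF (((k + 1 : ℕ) : ℝ≥0) / 2^m)
    have h2 := hF ((k : ℝ≥0) / 2^m)
    have hle : mF X ((k : ℝ≥0) / 2^m) ≤ mF X (((k + 1 : ℕ) : ℝ≥0) / 2^m) := by
      refine mF_mono X ?_
      gcongr
      simp
    exact @MeasurableSet.diff _ (mF X (((k + 1 : ℕ) : ℝ≥0) / 2^m)) _ _ h1 (hle _ h2)
  have hCm : ∀ k, MeasurableSet (C k) := fun k => mF_le hX.meas _ _ (hlem k)
  have hmem : ∀ k ω, ω ∈ C k ↔ ω ∈ A ∧ TI a (path X ω) ≤ (((k + 1 : ℕ) : ℝ≥0) / 2^m : ℝ≥0) ∧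
      ¬ TI a (path X ω) ≤ ((k : ℝ≥0) / 2^m : ℝ≥0) := by
    intro k ω
    simp only [hC, Set.mem_sdiff, mem_inter_iff, mem_ofPred_eq]
    tauto
  have hidx : ∀ k ω, ω ∈ C k → dy m (TX a X ω) = k + 1 := by
    intro k ω hω
    rw [hmem] at hω
    obtain ⟨_, h1, h2⟩ := hω
    have hne : TI a (path X ω) ≠ ⊤ := ne_top_of_le_ne_top ENNReal.coe_ne_top h1
    rw [dy_eq_iff]
    unfold TX TN
    constructor
    · rw [← ENNReal.coe_le_coe, ENNReal.coe_toNNReal hne]; exact h1
    · rw [← ENNReal.coe_le_coe, ENNReal.coe_toNNReal hne]; exact h2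
  have hdisj : Pairwise (Function.onFun Disjoint C) := by
    intro i j hij
    rw [Function.onFun, Set.disjoint_left]
    intro ω h1 h2
    have e1 := hidx i ω h1
    have e2 := hidx j ω h2
    omega
  have hcover : ∀ᵐ ω ∂P, ω ∈ A → ω ∈ ⋃ k, C k := by
    filter_upwards [hits_ae hX a] with ω hω hωA
    have hcw := hX.cont ω
    have hit : ∃ t, a ≤ path X ω t := hω
    have h0 : path X ω 0 < a := by rw [hX.path_zero]; exact ha
    have hpos := TN_pos hcw h0 hit
    have hne := TI_ne_top hcw hit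
    have hdpos : 0 < dy m (TN a (path X ω)) := Nat.ceil_pos.2 (by positivity)
    obtain ⟨k, hk⟩ := Nat.exists_eq_succ_of_ne_zero hdpos.ne'
    rw [mem_iUnion]
    refine ⟨k, (hmem k ω).2 ⟨hωA, ?_⟩⟩
    have := (dy_eq_iff m (TN a (path X ω)) k).1 hk
    unfold TN at this
    rw [← ENNReal.coe_le_coe, ENNReal.coe_toNNReal hne, ← ENNReal.coe_le_coe,
      ENNReal.coe_toNNReal hne] at this
    exact this
  have hsum : ∀ D : Set Ω, MeasurableSet D → P (A ∩ D) = ∑' k, P (C k ∩ D) := by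
    intro D hD
    rw [← measure_iUnion (fun i j hij => (hdisj hij).mono inter_subset_left inter_subset_left)
      fun k => (hCm k).inter hD]
    refine measure_congr ?_
    filter_upwards [hcover] with ω hω
    refine propext ⟨fun h => ?_, fun h => ?_⟩
    · have h1 : ω ∈ ⋃ k, C k := hω h.1
      obtain ⟨k, hk⟩ := mem_iUnion.1 h1
      exact mem_iUnion.2 ⟨k, hk, h.2⟩
    · obtain ⟨k, hk1, hk2⟩ := mem_iUnion.1 h
      exact ⟨((hmem k ω).1 hk1).1, hk2⟩
  have hDm : MeasurableSet {ω | path (postd a X m) ω ∈ S} :=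
    measurable_path (fun t => meas_postd hX a m t) hS
  rw [hsum _ hDm]
  have hPA : P A = ∑' k, P (C k) := by
    have := hsum univ MeasurableSet.univ
    simpa using this
  rw [hPA, ← ENNReal.tsum_mul_right]
  refine tsum_congr fun k => ?_
  rw [hq, ← ind_set hX (((k + 1 : ℕ) : ℝ≥0) / 2^m) (hlem k) hS]
  congr 1
  ext ω
  simp only [mem_inter_iff, mem_ofPred_eq]
  refine and_congr_right fun hω => ?_
  have e := hidx k ω hω
  have : path (postd a X m) ω = path (fun t ω => X (((k + 1 : ℕ) : ℝ≥0) / 2^m + t) ω -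
      X (((k + 1 : ℕ) : ℝ≥0) / 2^m) ω) ω := by
    funext t
    simp only [path, postd, e]
  rw [this]

/-- **Strong Markov property** at a first passage time. -/
theorem strong [IsProbabilityMeasure P] {X : ℝ≥0 → Ω → ℝ} (hX : CBM P X) {a : ℝ} (ha : 0 < a)
    {A : Set Ω} (hA : MeasurableSet A) (hF : FT a X A) :
    (P.restrict A).map (path (post a X)) = P A • P.map (path X) := by
  have hq := CBM.qp hX
  have hpm : ∀ t, Measurable (post a X t) := (QP.post a hq).meas
  have hfd : ∀ I : Finset ℝ≥0, (P.restrict A).map (fun ω (i : I) => post a X i ω) =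
      P A • P.map (fun ω (i : I) => X i ω) := by
    intro I
    have hm1 : Measurable (fun ω (i : I) => post a X i ω) := measurable_pi_lambda _ fun i => hpm i
    have hm2 : Measurable (fun ω (i : I) => X i ω) := measurable_pi_lambda _ fun i => hX.meas i
    have hm3 : ∀ m, Measurable (fun ω (i : I) => postd a X m i ω) := fun m =>
      measurable_pi_lambda _ fun i => meas_postd hX a m i
    have hfin : IsFiniteMeasure (P A • P.map (fun ω (i : I) => X i ω)) :=
      Measure.smul_finite _ (measure_ne_top _ _)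
    apply ext_of_forall_integral_eq_of_IsFiniteMeasure
    intro f
    have hd : ∀ m, (P.restrict A).map (fun ω (i : I) => postd a X m i ω) =
        P A • P.map (fun ω (i : I) => X i ω) := by
      intro m
      ext R hR
      rw [Measure.map_apply (hm3 m) hR, Measure.smul_apply, Measure.map_apply hm2 hR,
        Measure.restrict_apply (hm3 m hR), inter_comm, smul_eq_mul]
      have := strong_d hX ha hA hF m (S := {w : ℝ≥0 → ℝ | (fun i : I => w i) ∈ R})
        ((measurable_pi_lambda _ fun i => measurable_pi_apply _) hR)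
      exact this
    have h1 : ∀ m : ℕ, ∫ ω, f (fun i : I => postd a X m i ω) ∂(P.restrict A) =
        ∫ x, f x ∂(P A • P.map (fun ω (i : I) => X i ω)) := by
      intro m
      rw [← hd m, integral_map (hm3 m).aemeasurable f.continuous.aestronglyMeasurable]
    rw [integral_map hm1.aemeasurable f.continuous.aestronglyMeasurable]
    have hlim : Tendsto (fun m : ℕ => ∫ ω, f (fun i : I => postd a X m i ω) ∂(P.restrict A)) atTop
        (𝓝 (∫ ω, f (fun i : I => post a X i ω) ∂(P.restrict A))) := by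
      refine tendsto_integral_of_dominated_convergence (fun _ => ‖f‖)
        (fun m => (f.continuous.measurable.comp (hm3 m)).aestronglyMeasurable)
        (integrable_const _) (fun m => Eventually.of_forall fun ω => f.norm_coe_le_norm _)
        (Eventually.of_forall fun ω => ?_)
      refine (f.continuous.tendsto _).comp ?_
      rw [tendsto_pi_nhds]
      intro i
      have hc := hX.cont ω
      have ht := dy_tendsto (TX a X ω)
      have e1 : Tendsto (fun m => path X ω ((dy m (TX a X ω) : ℝ≥0) / 2^m + i)) atTop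
          (𝓝 (path X ω (TX a X ω + i))) := (hc.tendsto _).comp (ht.add_const _)
      have e2 : Tendsto (fun m => path X ω ((dy m (TX a X ω) : ℝ≥0) / 2^m)) atTop
          (𝓝 (path X ω (TX a X ω))) := (hc.tendsto _).comp ht
      exact e1.sub e2
    refine tendsto_nhds_unique hlim ?_
    simp_rw [h1]
    exact tendsto_const_nhds
  have hfin : ∀ I : Finset ℝ≥0, IsFiniteMeasure
      ((P.restrict A).map (fun ω (i : I) => post a X i ω)) := fun I => inferInstance
  have hp1 : IsProjectiveLimit ((P.restrict A).map (path (post a X)))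
      (fun I : Finset ℝ≥0 => (P.restrict A).map (fun ω (i : I) => post a X i ω)) := by
    intro I
    rw [Measure.map_map (Finset.measurable_restrict I) (measurable_path hpm)]
    rfl
  have hp2 : IsProjectiveLimit (P A • P.map (path X))
      (fun I : Finset ℝ≥0 => (P.restrict A).map (fun ω (i : I) => post a X i ω)) := by
    intro I
    rw [Measure.map_smul, Measure.map_map (Finset.measurable_restrict I) (measurable_path hX.meas)]
    exact (hfd I).symm
  exact hp1.unique hp2

/-- the post process is again a Brownian motion -/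
theorem CBM_post [IsProbabilityMeasure P] {X : ℝ≥0 → Ω → ℝ} (hX : CBM P X) {a : ℝ} (ha : 0 < a) :
    CBM P (post a X) := by
  have hq := QP.post a (CBM.qp hX)
  refine ⟨hq.meas, hq.cont, hq.zero, ⟨fun I => ?_⟩⟩
  have hF : FT a X univ := by
    intro t0
    rw [univ_inter]
    have : {ω | TI a (path X ω) ≤ t0} = {ω | a ≤ mx (path X ω) 0 t0} := by
      ext ω; exact TI_le_iff (hX.cont ω) t0
    rw [this]
    exact @meas_mx Ω (mF X t0) X t0 (fun s hs => mF_meas X hs) a
  have h := strong hX ha MeasurableSet.univ hF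
  rw [Measure.restrict_univ, measure_univ, one_smul] at h
  have h2 := (hX.pre.hasLaw I)
  have hm1 : Measurable (path (post a X)) := measurable_path hq.meas
  have hm2 : Measurable (path X) := measurable_path hX.meas
  refine ⟨?_, ?_⟩
  · exact ((Finset.measurable_restrict I).comp hm1).aemeasurable
  · have e1 : P.map (fun ω ↦ I.restrict (post a X · ω)) = (P.map (path (post a X))).map I.restrict := by
      rw [Measure.map_map (Finset.measurable_restrict I) hm1]; rfl
    have e2 : P.map (fun ω ↦ I.restrict (X · ω)) = (P.map (path X)).map I.restrict := by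
      rw [Measure.map_map (Finset.measurable_restrict I) hm2]; rfl
    rw [e1, h, ← e2]
    exact h2.map_eq

end Pool.Agent.V11191.Comp
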