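import Pool.Agent.V11191.Comp.Acc

/-!
# Transfer to one Brownian path seen from both ends
-/

open Set MeasureTheory Filter Topology ProbabilityTheory
open scoped NNReal ENNReal
open Pool.Agent.TH970

namespace Pool.Agent.V11191.Comp

/-- freezing at time `1/3` -/
noncomputable def st (w : ℝ≥0 → ℝ) : ℝ≥0 → ℝ := fun t => w (min t (1/3))

lemma measurable_st : Measurable st := measurable_pi_lambda _ fun _ => measurable_pi_apply _

lemma Qf_congr {w w' v v' : ℝ≥0 → ℝ} (h : ∀ t ≤ (1/3 : ℝ≥0), w t = v t)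
    (h' : ∀ t ≤ (1/3 : ℝ≥0), w' t = v' t) {ℓ : ℝ≥0} (hℓ : ℓ ≤ 1/3) : Qf w w' ℓ = Qf v v' ℓ := by
  unfold Qf mx
  refine iSup_congr fun n => ?_
  simp only
  rw [h _ ?_, h' _ (tsub_le_self.trans hℓ)]
  refine le_trans ?_ hℓ
  exact mul_le_of_le_one_left zero_le (max_le zero_le (min_le_right _ _))

lemma MQ_congr {w w' v v' : ℝ≥0 → ℝ} (h : ∀ t ≤ (1/3 : ℝ≥0), w t = v t)
    (h' : ∀ t ≤ (1/3 : ℝ≥0), w' t = v' t) {p : ℝ≥0} (hp : p ≤ 1/3) : MQ w w' p = MQ v v' p := by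
  unfold MQ mx
  refine iSup_congr fun n => ?_
  exact Qf_congr h h' ((max_le zero_le (min_le_right _ _)).trans hp)

lemma AA_congr {w w' v v' : ℝ≥0 → ℝ} (h : ∀ t ≤ (1/3 : ℝ≥0), w t = v t)
    (h' : ∀ t ≤ (1/3 : ℝ≥0), w' t = v' t) {b : ℝ} (hm : ((w, w'), b) ∈ AA) :
    ((v, v'), b) ∈ AA := by
  obtain ⟨h0, ⟨m, h1, h2⟩, h3⟩ := hm
  refine ⟨h0, ⟨m, h1, ?_⟩, fun m m' g1 g2 g3 => ?_⟩
  · rw [← MQ_congr h h' h1.le]; exact h2
  · simp only at g3
    rw [← MQ_congr h h' (g1.le.trans g2)] at g3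
    obtain ⟨k, k', k1, k2, k3, k4⟩ := h3 m m' g1 g2 g3
    refine ⟨k, k', k1, k2, ?_, ?_⟩
    · rw [← MQ_congr h h' ((k1.le.trans k2).trans g2)]; exact k3
    · rw [← Qf_congr h h' (k2.trans g2)]; exact k4

lemma AA_st {w w' : ℝ≥0 → ℝ} {b : ℝ} : ((st w, st w'), b) ∈ AA ↔ ((w, w'), b) ∈ AA := by
  have h : ∀ (w : ℝ≥0 → ℝ) (t : ℝ≥0), t ≤ 1/3 → st w t = w t := fun w t ht => by
    unfold st; rw [min_eq_left ht]
  exact ⟨AA_congr (h w) (h w'), AA_congr (fun t ht => (h w t ht).symm) fun t ht => (h w' t ht).symm⟩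

variable {Ω : Type*} [mΩ : MeasurableSpace Ω] {P : Measure Ω}

/-- the path seen backwards from time `1`, frozen after `1/3` -/
noncomputable def xr (X : ℝ≥0 → Ω → ℝ) (t : ℝ≥0) (ω : Ω) : ℝ := X 1 ω - X (1 - min t (1/3)) ω

lemma law_xr [IsProbabilityMeasure P] {X : ℝ≥0 → Ω → ℝ} (hX : CBM P X) :
    P.map (path (xr X)) = P.map (fun ω => st (path X ω)) := by
  have h1 := isPre_rev hX 1
  have hm1 : ∀ t, Measurable (fun ω => X (max t 1) ω - X (1 - t) ω) := fun t =>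
    (hX.meas _).sub (hX.meas _)
  have h2 := law_unique h1 hX.pre hm1 hX.meas
  have e1 : path (xr X) = st ∘ path (fun s ω => X (max s 1) ω - X (1 - s) ω) := by
    funext ω t
    simp only [Function.comp, path, st, xr]
    have h3 : min t (1/3) ≤ (1:ℝ≥0) := (min_le_right _ _).trans (by
      rw [← NNReal.coe_le_coe]; norm_num)
    rw [max_eq_right h3]
  have e2 : (fun ω => st (path X ω)) = st ∘ path X := rfl
  rw [e1, e2, ← Measure.map_map measurable_st (measurable_path hm1),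
    ← Measure.map_map measurable_st (measurable_path hX.meas), h2]

lemma thirds : (1/3 : ℝ≥0) + 1/3 = 2/3 ∧ (1/3 : ℝ≥0) + 2/3 = 1 ∧ (2/3 : ℝ≥0) + 1/3 = 1 := by
  refine ⟨?_, ?_, ?_⟩ <;> (apply NNReal.coe_injective; push_cast; norm_num)

lemma joint_law [IsProbabilityMeasure P] {X : ℝ≥0 → Ω → ℝ} (hX : CBM P X) :
    P.map (fun ω => (st (path X ω), (path (xr X) ω, X (2/3) ω - X (1/3) ω))) =
      (P.map (fun ω => st (path X ω))).prod ((P.map (fun ω => st (path X ω))).prod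
        (P.map (fun ω => X (2/3) ω - X (1/3) ω))) := by
  obtain ⟨t1, t2, t3⟩ := thirds
  have hm1 : Measurable (fun ω => st (path X ω)) := measurable_st.comp (measurable_path hX.meas)
  have hm2 : Measurable (path (xr X)) := measurable_path fun t => (hX.meas _).sub (hX.meas _)
  have hm3 : Measurable (fun ω => X (2/3) ω - X (1/3) ω) := (hX.meas _).sub (hX.meas _)
  -- first independence
  have hi1 : IndepFun (fun ω => st (path X ω)) (fun ω => (path (xr X) ω, X (2/3) ω - X (1/3) ω)) P := by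
    have h1 := (hX.pre.indepFun_shift (1/3)).symm
    have hφ1 : Measurable (fun (w : Iic (1/3 : ℝ≥0) → ℝ) (t : ℝ≥0) =>
        w ⟨min t (1/3), mem_Iic.2 (min_le_right _ _)⟩) :=
      measurable_pi_lambda _ fun t => measurable_pi_apply (X := fun _ : Iic (1/3 : ℝ≥0) => ℝ)
        ⟨min t (1/3), mem_Iic.2 (min_le_right _ _)⟩
    have hψ1 : Measurable (fun (s : ℝ≥0 → ℝ) =>
        ((fun t : ℝ≥0 => s (2/3) - s (2/3 - min t (1/3))), s (1/3))) := by
      refine Measurable.prodMk (measurable_pi_lambda _ fun t => ?_) (measurable_pi_apply _)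
      have a1 : Measurable (fun s : ℝ≥0 → ℝ => s (2/3)) := measurable_pi_apply _
      have a2 : Measurable (fun s : ℝ≥0 → ℝ => s (2/3 - min t (1/3))) := measurable_pi_apply _
      exact a1.sub a2
    have h2 := h1.comp
      (φ := fun (w : Iic (1/3 : ℝ≥0) → ℝ) (t : ℝ≥0) => w ⟨min t (1/3), mem_Iic.2 (min_le_right _ _)⟩)
      (ψ := fun (s : ℝ≥0 → ℝ) => ((fun t : ℝ≥0 => s (2/3) - s (2/3 - min t (1/3))), s (1/3)))
      hφ1 hψ1
    have e1 : ((fun (w : Iic (1/3 : ℝ≥0) → ℝ) (t : ℝ≥0) => w ⟨min t (1/3), mem_Iic.2 (min_le_right _ _)⟩) ∘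
        (fun ω (t : Iic (1/3 : ℝ≥0)) => X t ω)) = fun ω => st (path X ω) := rfl
    have e2 : ((fun (s : ℝ≥0 → ℝ) => ((fun t : ℝ≥0 => s (2/3) - s (2/3 - min t (1/3))), s (1/3))) ∘
        (fun ω t => X (1/3 + t) ω - X (1/3) ω)) =
        fun ω => (path (xr X) ω, X (2/3) ω - X (1/3) ω) := by
      funext ω
      simp only [Function.comp]
      rw [t1]
      refine Prod.ext ?_ rfl
      funext t
      simp only [path, xr]
      have h3 : (1/3 : ℝ≥0) + (2/3 - min t (1/3)) = 1 - min t (1/3) := by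
        have h4 : min t (1/3) ≤ (2/3 : ℝ≥0) := (min_le_right _ _).trans (by
          rw [← NNReal.coe_le_coe]; push_cast; norm_num)
        rw [← add_tsub_assoc_of_le h4, t2]
      rw [t2, h3]; ring
    rw [e1, e2] at h2
    exact h2
  have hi2 : IndepFun (path (xr X)) (fun ω => X (2/3) ω - X (1/3) ω) P := by
    have h1 := hX.pre.indepFun_shift (2/3)
    have h13 : (1/3 : ℝ≥0) ≤ 2/3 := by rw [← NNReal.coe_le_coe]; push_cast; norm_num
    have hφ2 : Measurable (fun (s : ℝ≥0 → ℝ) (t : ℝ≥0) => s (1/3) - s (1/3 - min t (1/3))) := by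
      refine measurable_pi_lambda _ fun t => ?_
      have a1 : Measurable (fun s : ℝ≥0 → ℝ => s (1/3)) := measurable_pi_apply _
      have a2 : Measurable (fun s : ℝ≥0 → ℝ => s (1/3 - min t (1/3))) := measurable_pi_apply _
      exact a1.sub a2
    have hψ2 : Measurable (fun (w : Iic (2/3 : ℝ≥0) → ℝ) => w ⟨2/3, mem_Iic.2 le_rfl⟩ - w ⟨1/3, mem_Iic.2 h13⟩) := by
      have a1 : Measurable (fun w : Iic (2/3 : ℝ≥0) → ℝ => w ⟨2/3, mem_Iic.2 le_rfl⟩) := measurable_pi_apply _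
      have a2 : Measurable (fun w : Iic (2/3 : ℝ≥0) → ℝ => w ⟨1/3, mem_Iic.2 h13⟩) := measurable_pi_apply _
      exact a1.sub a2
    have h2 := h1.comp
      (φ := fun (s : ℝ≥0 → ℝ) (t : ℝ≥0) => s (1/3) - s (1/3 - min t (1/3)))
      (ψ := fun (w : Iic (2/3 : ℝ≥0) → ℝ) => w ⟨2/3, mem_Iic.2 le_rfl⟩ - w ⟨1/3, mem_Iic.2 h13⟩)
      hφ2 hψ2
    have e1 : ((fun (s : ℝ≥0 → ℝ) (t : ℝ≥0) => s (1/3) - s (1/3 - min t (1/3))) ∘
        (fun ω t => X (2/3 + t) ω - X (2/3) ω)) = path (xr X) := by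
      funext ω t
      simp only [Function.comp, path, xr]
      have h3 : (2/3 : ℝ≥0) + (1/3 - min t (1/3)) = 1 - min t (1/3) := by
        rw [← add_tsub_assoc_of_le (min_le_right _ _), t3]
      rw [t3, h3]; ring
    rw [e1] at h2
    exact h2
  rw [(indepFun_iff_map_prod_eq_prod_map_map hm1.aemeasurable (hm2.prodMk hm3).aemeasurable).1 hi1,
    (indepFun_iff_map_prod_eq_prod_map_map hm2.aemeasurable hm3.aemeasurable).1 hi2, law_xr hX]

lemma law_mid [IsProbabilityMeasure P] {X : ℝ≥0 → Ω → ℝ} (hX : CBM P X) :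
    volume ≪ P.map (fun ω => X (2/3) ω - X (1/3) ω) := by
  have h := hX.pre.hasLaw_sub (2/3) (1/3)
  have h2 : P.map (fun ω => X (2/3) ω - X (1/3) ω) = _ := h.map_eq
  rw [h2]
  refine gaussianReal_absolutelyContinuous' _ ?_
  intro h3
  have h4 : nndist (2/3 : ℝ≥0).1 (1/3 : ℝ≥0).1 = 0 := h3
  rw [nndist_eq_zero] at h4
  have h5 : ((2/3 : ℝ≥0) : ℝ) = ((1/3 : ℝ≥0) : ℝ) := h4
  push_cast at h5
  norm_num at h5

/-- **the accumulation event has positive probability for one path** -/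
theorem pos_path [IsProbabilityMeasure P] {X : ℝ≥0 → Ω → ℝ} (hX : CBM P X) :
    P {ω | ((path X ω, path (xr X) ω), X 1 ω) ∈ AA} ≠ 0 := by
  intro hzero
  obtain ⟨b2, hb2, hpos⟩ := pos_AA hX
  obtain ⟨t1, t2, t3⟩ := thirds
  set L := P.map (fun ω => st (path X ω)) with hL
  set γ := P.map (fun ω => X (2/3) ω - X (1/3) ω) with hγ
  have hm1 : Measurable (fun ω => st (path X ω)) := measurable_st.comp (measurable_path hX.meas)
  have hm2 : Measurable (path (xr X)) := measurable_path fun t => (hX.meas _).sub (hX.meas _)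
  have hm3 : Measurable (fun ω => X (2/3) ω - X (1/3) ω) := (hX.meas _).sub (hX.meas _)
  have hLp : IsProbabilityMeasure L := Measure.isProbabilityMeasure_map hm1.aemeasurable
  have hγp : IsProbabilityMeasure γ := Measure.isProbabilityMeasure_map hm3.aemeasurable
  have hjoint := joint_law hX
  let Θ : (ℝ≥0 → ℝ) × ((ℝ≥0 → ℝ) × ℝ) → ((ℝ≥0 → ℝ) × (ℝ≥0 → ℝ)) × ℝ :=
    fun q => ((q.1, q.2.1), q.1 (1/3) + q.2.1 (1/3) + q.2.2)
  have hΘ : Measurable Θ := by
    refine (measurable_fst.prodMk (measurable_fst.comp measurable_snd)).prodMk ?_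
    have e1 : Measurable (fun q : (ℝ≥0 → ℝ) × ((ℝ≥0 → ℝ) × ℝ) => q.1 (1/3)) :=
      (measurable_pi_apply _).comp measurable_fst
    have e2 : Measurable (fun q : (ℝ≥0 → ℝ) × ((ℝ≥0 → ℝ) × ℝ) => q.2.1 (1/3)) :=
      (measurable_pi_apply _).comp (measurable_fst.comp measurable_snd)
    exact (e1.add e2).add (measurable_snd.comp measurable_snd)
  have hev : {ω | ((path X ω, path (xr X) ω), X 1 ω) ∈ AA} =
      (fun ω => (st (path X ω), (path (xr X) ω, X (2/3) ω - X (1/3) ω))) ⁻¹' (Θ ⁻¹' AA) := by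
    ext ω
    simp only [mem_ofPred_eq, mem_preimage, Θ]
    have e1 : st (path X ω) (1/3) + path (xr X) ω (1/3) + (X (2/3) ω - X (1/3) ω) = X 1 ω := by
      simp only [st, path, xr, min_self]
      have : (1:ℝ≥0) - 1/3 = 2/3 := tsub_eq_of_eq_add t3.symm
      rw [this]; ring
    rw [e1]
    have e2 : path (xr X) ω = st (path (xr X) ω) := by
      funext t; simp only [st, path, xr, min_assoc, min_self]
    constructor
    · intro h
      rw [e2]; exact AA_st.2 h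
    · intro h
      rw [e2] at h; exact AA_st.1 h
  rw [hev, ← Measure.map_apply (hm1.prodMk (hm2.prodMk hm3)) (hΘ meas_AA), hjoint,
    Measure.measure_prod_null (hΘ meas_AA)] at hzero
  -- sections
  have hsec : ∀ᵐ w ∂L, ∀ᵐ w' ∂L, volume {b : ℝ | ((w, w'), b) ∈ AA} = 0 := by
    filter_upwards [hzero] with w hw
    simp only [Pi.zero_apply] at hw
    rw [Measure.measure_prod_null (measurable_prodMk_left (hΘ meas_AA))] at hw
    filter_upwards [hw] with w' hw'
    simp only [Pi.zero_apply] at hw'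
    have h1 := law_mid hX hw'
    have h2 : Prod.mk w' ⁻¹' (Prod.mk w ⁻¹' (Θ ⁻¹' AA)) =
        (fun z => (w (1/3) + w' (1/3)) + z) ⁻¹' {b : ℝ | ((w, w'), b) ∈ AA} := rfl
    rw [h2, measure_preimage_add] at h1
    exact h1
  have hAAnull : ((L.prod L).prod volume) AA = 0 := by
    rw [Measure.measure_prod_null meas_AA]
    have hms : MeasurableSet {q : (ℝ≥0 → ℝ) × (ℝ≥0 → ℝ) | volume (Prod.mk q ⁻¹' AA) = 0} :=
      (measurable_measure_prodMk_left meas_AA) (measurableSet_singleton 0)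
    have h3 : ∀ᵐ q ∂(L.prod L), volume (Prod.mk q ⁻¹' AA) = 0 := by
      rw [Measure.ae_prod_iff_ae_ae hms]
      exact hsec
    exact h3
  rw [Measure.prod_apply_symm meas_AA, lintegral_eq_zero_iff
    (measurable_measure_prodMk_right meas_AA)] at hAAnull
  have hIoo : volume (Ioo 0 b2) ≠ 0 := by
    rw [Real.volume_Ioo]; simp [hb2]
  have hex : ∃ b ∈ Ioo 0 b2, (L.prod L) ((fun x => (x, b)) ⁻¹' AA) = 0 := by
    by_contra hcon
    push Not at hcon
    apply hIoo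
    refine measure_mono_null ?_ hAAnull
    intro b hb h4
    exact hcon b hb h4
  obtain ⟨b, ⟨hb0, hb1⟩, hb⟩ := hex
  apply hpos b hb0 hb1
  have hmap : L.prod L = (P.prod P).map (Prod.map (fun ω => st (path X ω)) fun ω => st (path X ω)) :=
    Measure.map_prod_map _ _ hm1 hm1
  have hmb : MeasurableSet ((fun x : (ℝ≥0 → ℝ) × (ℝ≥0 → ℝ) => (x, b)) ⁻¹' AA) :=
    measurable_prodMk_right meas_AA
  rw [hmap, Measure.map_apply (hm1.prodMap hm1) hmb] at hb
  have e : {p : Ω × Ω | ((path X p.1, path X p.2), b) ∈ AA} =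
      Prod.map (fun ω => st (path X ω)) (fun ω => st (path X ω)) ⁻¹'
        ((fun x => (x, b)) ⁻¹' AA) := by
    ext p
    exact AA_st.symm
  rw [e]; exact hb

end Pool.Agent.V11191.Comp
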